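import Mathlib

/-!
Graded modules given by projection operators, balanced bilinear forms, their homogeneous
components.
-/

open Finset

namespace Pool.Agent.Helper89.TC

variable {k : Type} [Field k] {A : Type} [CommRing A] [Algebra k A]
variable {V : Type} [AddCommGroup V] [Module k V]

/-- `e` is the family of projections of a grading (in degrees `ℕ`, bounded) of the `A`-module `M`,
where `p` are the projections of the grading of `A`. -/
structure IsGr (p : ℕ → A →ₗ[k] A) {M : Type} [AddCommGroup M] [Module k M] [Module A M]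
    (e : ℕ → M →ₗ[k] M) : Prop where
  orth : ∀ i j x, e i (e j x) = if i = j then e j x else 0
  bdd : ∃ N, ∀ x, ∑ i ∈ range N, e i x = x
  smul : ∀ i j a x, e (i + j) (p i a • e j x) = p i a • e j x

section

variable {p : ℕ → A →ₗ[k] A}
variable {M : Type} [AddCommGroup M] [Module k M] [Module A M]
variable {N : Type} [AddCommGroup N] [Module k N] [Module A N]
variable {e : ℕ → M →ₗ[k] M} {f : ℕ → N →ₗ[k] N}

theorem IsGr.idem (he : IsGr p e) (i : ℕ) (x : M) : e i (e i x) = e i x := by
  rw [he.orth, if_pos rfl]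

theorem IsGr.orth' (he : IsGr p e) {i j : ℕ} (h : i ≠ j) (x : M) : e i (e j x) = 0 := by
  rw [he.orth, if_neg h]

theorem IsGr.exists_bdd (he : IsGr p e) :
    ∃ B, (∀ i, B ≤ i → e i = 0) ∧ ∀ x, ∑ i ∈ range B, e i x = x := by
  obtain ⟨B, hB⟩ := he.bdd
  refine ⟨B, fun i hi => ?_, hB⟩
  ext x
  have h := congrArg (e i) (hB x)
  rw [map_sum] at h
  rw [LinearMap.zero_apply, ← h]
  refine sum_eq_zero fun j hj => he.orth' ?_ x
  have := mem_range.1 hj
  omega

theorem IsGr.ext_hom (he : IsGr p e) {X : Type} [AddCommGroup X] [Module k X]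
    {L₁ L₂ : M →ₗ[k] X} (h : ∀ i x, L₁ (e i x) = L₂ (e i x)) : L₁ = L₂ := by
  obtain ⟨B, _, hB⟩ := he.exists_bdd
  ext x
  rw [← hB x, map_sum, map_sum]
  exact sum_congr rfl fun i _ => h i x

theorem IsGr.smul_comp (he : IsGr p e) {i j n : ℕ} (a : A) (x : M) :
    e n (p i a • e j x) = if n = i + j then p i a • e j x else 0 := by
  split_ifs with h
  · rw [h, he.smul]
  · rw [← he.smul i j a x, he.orth' h]

end

/-- balanced bilinear forms (with values in `V`; later `V` is one-dimensional) -/
def Bal (A : Type) {k : Type} [Field k] [CommRing A] [Algebra k A] {M N : Type}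
    [AddCommGroup M] [Module k M] [Module A M] [AddCommGroup N] [Module k N] [Module A N]
    {V : Type} [AddCommGroup V] [Module k V]
    (b : M →ₗ[k] N →ₗ[k] V) : Prop := ∀ (a : A) x y, b (a • x) y = b x (a • y)

/-- balanced bilinear forms, homogeneous of degree `n` -/
def BAn (A : Type) {k : Type} [Field k] [CommRing A] [Algebra k A] {M N : Type}
    (V : Type) [AddCommGroup V] [Module k V] [AddCommGroup M] [Module k M] [Module A M] [AddCommGroup N] [Module k N] [Module A N]
    (e : ℕ → M →ₗ[k] M) (f : ℕ → N →ₗ[k] N) (n : ℕ) :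
    Submodule k (M →ₗ[k] N →ₗ[k] V) where
  carrier := {b | (∀ (a : A) x y, b (a • x) y = b x (a • y)) ∧
    ∀ i j x y, i + j ≠ n → b (e i x) (f j y) = 0}
  add_mem' := by
    intro b c hb hc
    refine ⟨fun a x y => ?_, fun i j x y h => ?_⟩
    · simp only [LinearMap.add_apply, hb.1 a x y, hc.1 a x y]
    · simp only [LinearMap.add_apply, hb.2 i j x y h, hc.2 i j x y h, add_zero]
  zero_mem' := ⟨fun a x y => by simp, fun i j x y h => by simp⟩
  smul_mem' := by
    intro c b hb
    refine ⟨fun a x y => ?_, fun i j x y h => ?_⟩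
    · simp only [LinearMap.smul_apply, hb.1 a x y]
    · simp only [LinearMap.smul_apply, hb.2 i j x y h, smul_zero]

/-- balanced bilinear forms on `M`, homogeneous of degree `n`, with `b y x = s • b x y` -/
def BS (A : Type) {k : Type} [Field k] [CommRing A] [Algebra k A] {M : Type}
    (V : Type) [AddCommGroup V] [Module k V] [AddCommGroup M] [Module k M] [Module A M]
    (s : k) (e : ℕ → M →ₗ[k] M) (n : ℕ) :
    Submodule k (M →ₗ[k] M →ₗ[k] V) where
  carrier := {b | b ∈ BAn A V e e n ∧ ∀ x y, b y x = s • b x y}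
  add_mem' := by
    intro b c hb hc
    refine ⟨(BAn A V e e n).add_mem hb.1 hc.1, fun x y => ?_⟩
    simp only [LinearMap.add_apply, hb.2 x y, hc.2 x y, smul_add]
  zero_mem' := ⟨(BAn A V e e n).zero_mem, fun x y => by simp⟩
  smul_mem' := by
    intro c b hb
    refine ⟨(BAn A V e e n).smul_mem c hb.1, fun x y => ?_⟩
    simp only [LinearMap.smul_apply, hb.2 x y]
    module

/-- functionals `φ` on `N` such that `φ` vanishes on degree `j` unless `d + j = n` -/
def Ds {k : Type} [Field k] {N : Type} (V : Type) [AddCommGroup V] [Module k V]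
    [AddCommGroup N] [Module k N]
    (f : ℕ → N →ₗ[k] N) (d n : ℕ) : Submodule k (N →ₗ[k] V) where
  carrier := {φ | ∀ j y, d + j ≠ n → φ (f j y) = 0}
  add_mem' := by
    intro b c hb hc j y h
    simp only [LinearMap.add_apply, hb j y h, hc j y h, add_zero]
  zero_mem' := fun j y h => by simp
  smul_mem' := by
    intro c b hb j y h
    simp only [LinearMap.smul_apply, hb j y h, smul_zero]

section

variable {p : ℕ → A →ₗ[k] A}
variable {M : Type} [AddCommGroup M] [Module k M] [Module A M]
variable {N : Type} [AddCommGroup N] [Module k N] [Module A N]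
variable {M' : Type} [AddCommGroup M'] [Module k M'] [Module A M']
variable {N' : Type} [AddCommGroup N'] [Module k N'] [Module A N']
variable {e : ℕ → M →ₗ[k] M} {f : ℕ → N →ₗ[k] N}
variable {e' : ℕ → M' →ₗ[k] M'} {f' : ℕ → N' →ₗ[k] N'}

/-- the component of degree `n` of a bilinear form -/
noncomputable def cmp (e : ℕ → M →ₗ[k] M) (f : ℕ → N →ₗ[k] N) (n : ℕ)
    (b : M →ₗ[k] N →ₗ[k] V) : M →ₗ[k] N →ₗ[k] V :=
  ∑ q ∈ antidiagonal n, b.compl₁₂ (e q.1) (f q.2)

theorem cmp_apply (n : ℕ) (b : M →ₗ[k] N →ₗ[k] V) (x : M) (y : N) :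
    cmp e f n b x y = ∑ q ∈ antidiagonal n, b (e q.1 x) (f q.2 y) := by
  simp [cmp, LinearMap.sum_apply, LinearMap.compl₁₂_apply]

theorem cmp_hom (he : IsGr p e) (hf : IsGr p f) (n i j : ℕ) (b : M →ₗ[k] N →ₗ[k] V)
    (x : M) (y : N) :
    cmp e f n b (e i x) (f j y) = if i + j = n then b (e i x) (f j y) else 0 := by
  rw [cmp_apply]
  split_ifs with h
  · rw [sum_eq_single (i, j)]
    · simp only [he.idem, hf.idem]
    · rintro ⟨u, v⟩ huv hne
      have h1 := mem_antidiagonal.1 huv
      simp only at h1 ⊢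
      by_cases hu : u = i
      · exfalso
        apply hne
        rw [Prod.mk.injEq]
        exact ⟨hu, by omega⟩
      · rw [he.orth' hu]
        simp
    · intro h1
      exact absurd (mem_antidiagonal.2 h) h1
  · refine sum_eq_zero ?_
    rintro ⟨u, v⟩ huv
    have h1 := mem_antidiagonal.1 huv
    simp only at h1 ⊢
    by_cases hu : u = i
    · have hv : v ≠ j := by omega
      rw [hf.orth' hv]
      simp
    · rw [he.orth' hu]
      simp

theorem form_ext (he : IsGr p e) (hf : IsGr p f) {b c : M →ₗ[k] N →ₗ[k] V}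
    (h : ∀ i j x y, b (e i x) (f j y) = c (e i x) (f j y)) : b = c := by
  refine he.ext_hom fun i x => hf.ext_hom fun j y => h i j x y

theorem cmp_mem (hp : IsGr p p) (he : IsGr p e) (hf : IsGr p f) (n : ℕ)
    [IsScalarTower k A M] [IsScalarTower k A N]
    {b : M →ₗ[k] N →ₗ[k] V} (hb : Bal A b) : cmp e f n b ∈ BAn A V e f n := by
  have key : ∀ l i j (a : A) (x : M) (y : N),
      cmp e f n b (p l a • e i x) (f j y) = cmp e f n b (e i x) (p l a • f j y) := by
    intro l i j a x y
    rw [← he.smul l i a x, ← hf.smul l j a y, cmp_hom he hf, cmp_hom he hf, he.smul, hf.smul]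
    have h1 : l + i + j = i + (l + j) := by omega
    rw [h1]
    split_ifs with h
    · exact hb _ _ _
    · rfl
  refine ⟨fun a x y => ?_, fun i j x y h => by rw [cmp_hom he hf, if_neg h]⟩
  refine LinearMap.congr_fun (hf.ext_hom (L₁ := cmp e f n b (a • x))
    (L₂ := (cmp e f n b x).comp (Algebra.lsmul k k N a)) fun j y => ?_) y
  simp only [LinearMap.comp_apply, Algebra.lsmul_coe]
  refine LinearMap.congr_fun (he.ext_hom
    (L₁ := ((cmp e f n b).flip (f j y)).comp (Algebra.lsmul k k M a))
    (L₂ := (cmp e f n b).flip (a • f j y)) fun i x => ?_) x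
  simp only [LinearMap.comp_apply, Algebra.lsmul_coe, LinearMap.flip_apply]
  refine LinearMap.congr_fun (hp.ext_hom
    (L₁ := ((cmp e f n b).flip (f j y)).comp
      ((LinearMap.toSpanSingleton A M (e i x)).restrictScalars k))
    (L₂ := (cmp e f n b (e i x)).comp
      ((LinearMap.toSpanSingleton A N (f j y)).restrictScalars k)) fun l a => ?_) a
  simp only [LinearMap.comp_apply, LinearMap.flip_apply, LinearMap.coe_restrictScalars,
    LinearMap.toSpanSingleton_apply]
  exact key l i j a x y

theorem cmp_self (he : IsGr p e) (hf : IsGr p f) (n : ℕ)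
    {b : M →ₗ[k] N →ₗ[k] V} (hb : b ∈ BAn A V e f n) : cmp e f n b = b := by
  refine form_ext he hf fun i j x y => ?_
  rw [cmp_hom he hf]
  split_ifs with h
  · rfl
  · exact (hb.2 i j x y h).symm

/-- restriction of components along degree preserving maps -/
theorem cmp_compl (n : ℕ) (b : M →ₗ[k] N →ₗ[k] V) (g : M' →ₗ[k] M) (h : N' →ₗ[k] N)
    (hg : ∀ i x, g (e' i x) = e i (g x)) (hh : ∀ i x, h (f' i x) = f i (h x)) :
    (cmp e f n b).compl₁₂ g h = cmp e' f' n (b.compl₁₂ g h) := by
  ext x y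
  simp only [LinearMap.compl₁₂_apply, cmp_apply, hg, hh]

theorem compl_mem {n : ℕ} {b : M →ₗ[k] N →ₗ[k] V} (hb : b ∈ BAn A V e f n)
    (g : M' →ₗ[k] M) (h : N' →ₗ[k] N)
    (hga : ∀ (a : A) x, g (a • x) = a • g x) (hha : ∀ (a : A) x, h (a • x) = a • h x)
    (hg : ∀ i x, g (e' i x) = e i (g x)) (hh : ∀ i x, h (f' i x) = f i (h x)) :
    b.compl₁₂ g h ∈ BAn A V e' f' n := by
  refine ⟨fun a x y => ?_, fun i j x y hij => ?_⟩
  · simp only [LinearMap.compl₁₂_apply, hga, hha, hb.1]
  · simp only [LinearMap.compl₁₂_apply, hg, hh, hb.2 i j _ _ hij]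

theorem flip_mem {n : ℕ} {b : M →ₗ[k] N →ₗ[k] V} (hb : b ∈ BAn A V e f n) :
    b.flip ∈ BAn A V f e n := by
  refine ⟨fun a x y => ?_, fun i j x y hij => ?_⟩
  · simp only [LinearMap.flip_apply, hb.1]
  · simp only [LinearMap.flip_apply]
    exact hb.2 j i y x (by omega)

end

end Pool.Agent.Helper89.TC
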