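import Pool.Agent.Helper89.TC.Dual

/-!
The numerical argument: no antisymmetric balanced forms on the dual of the ring.
-/

open Module CategoryTheory CategoryTheory.Abelian Polynomial

namespace Pool.Agent.Helper89.TC

/-- a power series with coefficients vanishing from `N` on is a polynomial -/
theorem coe_trunc {φ : PowerSeries ℤ} {N : ℕ} (h : ∀ n, N ≤ n → PowerSeries.coeff n φ = 0) :
    ((PowerSeries.trunc N φ : ℤ[X]) : PowerSeries ℤ) = φ := by
  ext n
  rw [Polynomial.coeff_coe, PowerSeries.coeff_trunc]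
  split_ifs with hn
  · rfl
  · exact (h n (by omega)).symm

theorem ex_coe (P : ℤ[X]) : ex (P : PowerSeries ℤ) = ((Polynomial.expand ℤ 2 P : ℤ[X]) :
    PowerSeries ℤ) := by
  ext n
  rw [ex, PowerSeries.coeff_expand, Polynomial.coeff_coe, Polynomial.coeff_coe,
    Polynomial.coeff_expand (by norm_num)]

theorem coeff_mul_zero {φ ψ : PowerSeries ℤ} {a b n : ℕ}
    (hφ : ∀ i, a < i → PowerSeries.coeff i φ = 0) (hψ : ∀ i, b < i → PowerSeries.coeff i ψ = 0)
    (hn : a + b < n) : PowerSeries.coeff n (φ * ψ) = 0 := by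
  rw [PowerSeries.coeff_mul]
  refine Finset.sum_eq_zero ?_
  rintro ⟨i, j⟩ hij
  rw [Finset.HasAntidiagonal.mem_antidiagonal] at hij
  simp only at hij ⊢
  by_cases h : a < i
  · rw [hφ i h, zero_mul]
  · rw [hψ j (by omega), mul_zero]

theorem coeff_ex_zero {φ : PowerSeries ℤ} {a : ℕ}
    (hφ : ∀ i, a < i → PowerSeries.coeff i φ = 0) (i : ℕ) (hi : 2 * a < i) :
    PowerSeries.coeff i (ex φ) = 0 := by
  rw [ex, PowerSeries.coeff_expand]
  split_ifs with h
  · exact hφ _ (by omega)
  · rfl

/-- sum of the coefficients -/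
theorem eval_one_trunc (φ : PowerSeries ℤ) (N : ℕ) :
    (PowerSeries.trunc N φ : ℤ[X]).eval 1 = ∑ n ∈ Finset.range N, PowerSeries.coeff n φ := by
  rw [Polynomial.eval, PowerSeries.eval₂_trunc_eq_sum_range]
  exact Finset.sum_congr rfl fun n _ => by simp

variable {k : Type} [Field k] {A : Type} [CommRing A] [Algebra k A]
variable {p : ℕ → A →ₗ[k] A}
variable {V : Type} [AddCommGroup V] [Module k V]
variable [Module.Finite k A] [Module.Finite k V]
variable [HasExt.{0} (ModuleCat.{0} A)]

theorem no_antisym (hp : IsGr p p) (h1 : p 0 1 = 1) (h2 : (2 : k) ≠ 0)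
    (hA0 : ∀ x : A, ∃ c : k, algebraMap k A c = p 0 x) {s : ℕ} (hs : ∀ i, s < i → p i = 0)
    (hs0 : p s ≠ 0) (hV : finrank k V = 1) (hVan : Van k A V (Dl k V A) (3 * s + 2)) (n : ℕ) :
    finrank k (BS A V (-1 : k) (eE V p s) n) = 0 := by
  have he : IsGr p (eE V p s) := isGr_eE hp hs
  have eZ : ∀ i, s < i → eE V p s i = 0 := fun i hi => eE_zero hi
  obtain ⟨q, hq1, hq2⟩ : ∃ q, 3 * s + 1 ≤ 2 * q ∧ 2 * q ≤ 3 * s + 2 :=
    ⟨(3 * s + 2) / 2, by omega, by omega⟩
  obtain ⟨d1, d2⟩ := recursion V hp h1 h2 hA0 q (Dl k V A) (eE V p s) he 0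
    (fun i hi => absurd hi (by omega)) (fun i hi hi2 => hVan i hi (by omega))
  rw [zero_add] at d1 d2
  rw [PowerSeries.X_pow_dvd_iff] at d1 d2
  have hP : ∀ i, s < i → PowerSeries.coeff i (hS V p) = 0 := fun i hi => by
    rw [hS, PowerSeries.coeff_mk, Ds_eq_bot hp (hs i hi), finrank_bot, Nat.cast_zero]
  have hH : ∀ i, s < i → PowerSeries.coeff i (hS V (eE V p s)) = 0 := fun i hi => by
    rw [hS, PowerSeries.coeff_mk, Ds_eq_bot he (eZ i hi), finrank_bot, Nat.cast_zero]
  have hC : ∀ i, 2 * s < i → PowerSeries.coeff i (cS V A (eE V p s) (eE V p s)) = 0 :=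
    fun i hi => by
      rw [cS, PowerSeries.coeff_mk, BAn_eq_bot_of_gt he he eZ eZ (by omega), finrank_bot,
        Nat.cast_zero]
  have hDc : hS V p * cS V A (eE V p s) (eE V p s) = hS V (eE V p s) * hS V (eE V p s) := by
    ext i
    rw [← sub_eq_zero, ← map_sub]
    by_cases hi : i < 2 * q
    · exact d2 i hi
    · rw [map_sub, coeff_mul_zero hP hC (by omega), coeff_mul_zero hH hH (by omega), sub_zero]
  have hPs : PowerSeries.coeff s (hS V p) ≠ 0 := by
    rw [hS, PowerSeries.coeff_mk]
    intro h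
    rw [Nat.cast_eq_zero, Submodule.finrank_eq_zero] at h
    obtain ⟨x, hx⟩ : ∃ x, p s x ≠ 0 := by
      by_contra h'
      push Not at h'
      exact hs0 (LinearMap.ext h')
    obtain ⟨φ, hφ⟩ := exists_functional hV hx
    have h3 : φ.get.comp (p s) ∈ Ds V p 0 s := comp_mem_Ds hp s _
    rw [h, Submodule.mem_bot] at h3
    exact hφ (LinearMap.congr_fun h3 x)
  have hA : Nontrivial A := by
    obtain ⟨x, hx⟩ : ∃ x, p s x ≠ 0 := by
      by_contra h'
      push Not at h'
      exact hs0 (LinearMap.ext h')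
    exact ⟨⟨_, _, hx⟩⟩
  -- polynomials
  have cP := coe_trunc (N := s + 1) (fun i hi => hP i (by omega))
  have cH := coe_trunc (N := s + 1) (fun i hi => hH i (by omega))
  have cC := coe_trunc (N := 2 * s + 1) (fun i hi => hC i (by omega))
  have e1 : PowerSeries.trunc (s + 1) (hS V p) *
      PowerSeries.trunc (2 * s + 1) (cS V A (eE V p s) (eE V p s)) =
      PowerSeries.trunc (s + 1) (hS V (eE V p s)) * PowerSeries.trunc (s + 1) (hS V (eE V p s)) := by
    rw [← Polynomial.coe_inj, Polynomial.coe_mul, Polynomial.coe_mul, cP, cH, cC, hDc]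
  have hC' : ∀ i, s < i → PowerSeries.coeff i (cS V A (eE V p s) (eE V p s)) = 0 := by
    intro i hi
    by_contra hne
    have hi2 : i ≤ 2 * s := by
      by_contra h'
      exact hne (hC i (by omega))
    have hcoef : (PowerSeries.trunc (2 * s + 1) (cS V A (eE V p s) (eE V p s))).coeff i ≠ 0 := by
      rw [PowerSeries.coeff_trunc, if_pos (by omega)]
      exact hne
    have hcoefP : (PowerSeries.trunc (s + 1) (hS V p)).coeff s ≠ 0 := by
      rw [PowerSeries.coeff_trunc, if_pos (by omega)]
      exact hPs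
    have n1 := Polynomial.le_natDegree_of_ne_zero hcoef
    have n2 := Polynomial.le_natDegree_of_ne_zero hcoefP
    have hne1 : PowerSeries.trunc (2 * s + 1) (cS V A (eE V p s) (eE V p s)) ≠ 0 := by
      intro h
      rw [h] at hcoef
      exact hcoef (Polynomial.coeff_zero _)
    have hne2 : PowerSeries.trunc (s + 1) (hS V p) ≠ 0 := by
      intro h
      rw [h] at hcoefP
      exact hcoefP (Polynomial.coeff_zero _)
    have n3 := Polynomial.natDegree_mul hne2 hne1
    rw [e1] at n3
    have n4 := PowerSeries.natDegree_trunc_lt (hS V (eE V p s)) s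
    have n5 := Polynomial.natDegree_mul_le (p := PowerSeries.trunc (s + 1) (hS V (eE V p s)))
      (q := PowerSeries.trunc (s + 1) (hS V (eE V p s)))
    omega
  have hB : ∀ i, s < i → finrank k (BS A V (1 : k) (eE V p s) i) = 0 ∧
      finrank k (BS A V (-1 : k) (eE V p s) i) = 0 := by
    intro i hi
    have h3 := hC' i hi
    rw [cS, PowerSeries.coeff_mk, Nat.cast_eq_zero] at h3
    have h4 := finrank_BAn_split (A := A) (V := V) (e := eE V p s) h2 i
    omega
  have hT : ∀ i, s < i → PowerSeries.coeff i (tS V A (eE V p s)) = 0 := by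
    intro i hi
    rw [tS, PowerSeries.coeff_mk, (hB i hi).1, (hB i hi).2]
    simp
  have hDt : ex (hS V p) * tS V A (eE V p s) = hS V p * ex (hS V (eE V p s)) := by
    ext i
    rw [← sub_eq_zero, ← map_sub]
    by_cases hi : i < 2 * q
    · exact d1 i hi
    · rw [map_sub, coeff_mul_zero (coeff_ex_zero hP) hT (by omega),
        coeff_mul_zero hP (coeff_ex_zero hH) (by omega), sub_zero]
  have cC' := coe_trunc (N := s + 1) (fun i hi => hC' i (by omega))
  have cT := coe_trunc (N := s + 1) (fun i hi => hT i (by omega))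
  have e2 : PowerSeries.trunc (s + 1) (hS V p) *
      PowerSeries.trunc (s + 1) (cS V A (eE V p s) (eE V p s)) =
      PowerSeries.trunc (s + 1) (hS V (eE V p s)) * PowerSeries.trunc (s + 1) (hS V (eE V p s)) := by
    rw [← Polynomial.coe_inj, Polynomial.coe_mul, Polynomial.coe_mul, cP, cH, cC', hDc]
  have e3 : Polynomial.expand ℤ 2 (PowerSeries.trunc (s + 1) (hS V p)) *
      PowerSeries.trunc (s + 1) (tS V A (eE V p s)) =
      PowerSeries.trunc (s + 1) (hS V p) *
        Polynomial.expand ℤ 2 (PowerSeries.trunc (s + 1) (hS V (eE V p s))) := by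
    rw [← Polynomial.coe_inj, Polynomial.coe_mul, Polynomial.coe_mul, ← ex_coe, ← ex_coe,
      cP, cH, cT, hDt]
  have e4 := congrArg (Polynomial.eval 1) e2
  have e5 := congrArg (Polynomial.eval 1) e3
  rw [Polynomial.eval_mul, Polynomial.eval_mul] at e4 e5
  rw [Polynomial.expand_eval, Polynomial.expand_eval, one_pow] at e5
  -- total dimensions
  have sumP : (PowerSeries.trunc (s + 1) (hS V p)).eval 1 = (finrank k A : ℤ) := by
    rw [eval_one_trunc]
    have hBs : ∀ x, ∑ i ∈ Finset.range (s + 1), p i x = x := by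
      intro x
      obtain ⟨B, hB0, hBB⟩ := hp.exists_bdd
      rcases le_total B (s + 1) with h | h
      · rw [← Finset.sum_subset (Finset.range_subset_range.2 h), hBB]
        intro i _ hi
        rw [Finset.mem_range, not_lt] at hi
        rw [hB0 i hi]
        rfl
      · rw [Finset.sum_subset (Finset.range_subset_range.2 h), hBB]
        intro i _ hi
        rw [Finset.mem_range, not_lt] at hi
        rw [hs i (by omega)]
        rfl
    have h3 := sum_Ds (V := V) hp (B := s + 1) (fun i hi => hs i (by omega)) hBs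
    rw [hV, mul_one] at h3
    rw [← h3, Nat.cast_sum]
    refine Finset.sum_congr rfl fun i _ => ?_
    rw [hS, PowerSeries.coeff_mk]
  have sumH : (PowerSeries.trunc (s + 1) (hS V (eE V p s))).eval 1 = (finrank k A : ℤ) := by
    rw [eval_one_trunc]
    have hBs : ∀ x, ∑ i ∈ Finset.range (s + 1), eE V p s i x = x := by
      intro x
      obtain ⟨B, hB0, hBB⟩ := he.exists_bdd
      rcases le_total B (s + 1) with h | h
      · rw [← Finset.sum_subset (Finset.range_subset_range.2 h), hBB]
        intro i _ hi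
        rw [Finset.mem_range, not_lt] at hi
        rw [hB0 i hi]
        rfl
      · rw [Finset.sum_subset (Finset.range_subset_range.2 h), hBB]
        intro i _ hi
        rw [Finset.mem_range, not_lt] at hi
        rw [eZ i (by omega)]
        rfl
    have h3 := sum_Ds (V := V) he (B := s + 1) (fun i hi => eZ i (by omega)) hBs
    rw [finrank_Dl, hV, mul_one, mul_one] at h3
    rw [← h3, Nat.cast_sum]
    refine Finset.sum_congr rfl fun i _ => ?_
    rw [hS, PowerSeries.coeff_mk]
  rw [sumP, sumH] at e4 e5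
  have hl : (finrank k A : ℤ) ≠ 0 := by
    have := Module.finrank_pos (R := k) (M := A)
    omega
  have e6 := mul_left_cancel₀ hl e4
  have e7 := mul_left_cancel₀ hl e5
  rw [eval_one_trunc] at e6 e7
  have e8 : ∑ i ∈ Finset.range (s + 1),
      (2 * (finrank k (BS A V (-1 : k) (eE V p s) i) : ℤ)) = 0 := by
    have h3 : ∀ i ∈ Finset.range (s + 1), (2 * (finrank k (BS A V (-1 : k) (eE V p s) i) : ℤ)) =
        PowerSeries.coeff i (cS V A (eE V p s) (eE V p s)) -
          PowerSeries.coeff i (tS V A (eE V p s)) := by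
      intro i _
      have h4 := finrank_BAn_split (A := A) (V := V) (e := eE V p s) h2 i
      rw [cS, tS, PowerSeries.coeff_mk, PowerSeries.coeff_mk]
      omega
    rw [Finset.sum_congr rfl h3, Finset.sum_sub_distrib, e6, e7, sub_self]
  by_cases hn : s < n
  · exact (hB n hn).2
  · have h3 := (Finset.sum_eq_zero_iff_of_nonneg (fun i _ => by positivity)).1 e8 n
      (Finset.mem_range.2 (by omega))
    omega

end Pool.Agent.Helper89.TC
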