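import Pool.Agent.Helper89.TC.Rec

/-!
The dual of the ring: grading, injectivity, biduality.
-/

open Finset Module CategoryTheory CategoryTheory.Abelian

namespace Pool.Agent.Helper89.TC

variable {k : Type} [Field k] {A : Type} [CommRing A] [Algebra k A]
variable {p : ℕ → A →ₗ[k] A}
variable {V : Type} [AddCommGroup V] [Module k V]

theorem IsGr.mul_hom (hp : IsGr p p) (n i : ℕ) (c a : A) :
    p n (p i a * c) = if i ≤ n then p i a * p (n - i) c else 0 := by
  have h := IsGr.smul_hom hp hp n i c a
  rw [smul_eq_mul, smul_eq_mul] at h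
  rw [mul_comm, h, mul_comm (p i a)]

/-- projections of the grading of the dual, shifted to degrees `0..s` -/
noncomputable def eE (V : Type) [AddCommGroup V] [Module k V] (p : ℕ → A →ₗ[k] A) (s i : ℕ) :
    Dl k V A →ₗ[k] Dl k V A :=
  { toFun := fun φ => if i ≤ s then Dl.mk (φ.get.comp (p (s - i))) else 0
    map_add' := fun φ ψ => by
      split_ifs
      · rfl
      · rw [add_zero]
    map_smul' := fun c φ => by
      split_ifs
      · rfl
      · rw [smul_zero] }

theorem eE_get (s i : ℕ) (φ : Dl k V A) (x : A) :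
    (eE V p s i φ).get x = if i ≤ s then φ.get (p (s - i) x) else 0 := by
  show Dl.get (if i ≤ s then Dl.mk (φ.get.comp (p (s - i))) else 0) x = _
  split_ifs <;> rfl

theorem Dl.sum_get {N ι : Type} [AddCommGroup N] [Module k N] (t : Finset ι) (φ : ι → Dl k V N)
    (x : N) : (∑ i ∈ t, φ i).get x = ∑ i ∈ t, (φ i).get x := by
  classical
  induction t using Finset.induction_on with
  | empty => simp
  | insert a t ha ih => rw [sum_insert ha, sum_insert ha, Dl.add_get, ih]

theorem isGr_eE (hp : IsGr p p) {s : ℕ} (hs : ∀ i, s < i → p i = 0) : IsGr p (eE V p s) := by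
  refine ⟨fun i j φ => Dl.ext fun x => ?_, ⟨s + 1, fun φ => Dl.ext fun x => ?_⟩,
    fun i j a φ => Dl.ext fun x => ?_⟩
  · rw [eE_get]
    split_ifs with h1 h2 h2
    · subst h2
      rw [eE_get, eE_get, if_pos h1, if_pos h1, hp.idem]
    · rw [eE_get, Dl.zero_get]
      split_ifs with h3
      · rw [hp.orth' (by omega), map_zero]
      · rfl
    · subst h2
      rw [eE_get, if_neg h1]
    · rfl
  · rw [Dl.sum_get]
    have h1 : ∀ i ∈ range (s + 1), (eE V p s i φ).get x = φ.get (p (s - i) x) := fun i hi => by
      rw [eE_get, if_pos (by rw [mem_range] at hi; omega)]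
    rw [sum_congr rfl h1, ← map_sum]
    congr 1
    have h2 := sum_range_reflect (fun i => p i x) (s + 1)
    have h3 : ∀ i ∈ range (s + 1), p (s + 1 - 1 - i) x = p (s - i) x := fun i _ => by
      rw [Nat.add_sub_cancel]
    rw [sum_congr rfl h3] at h2
    rw [h2]
    obtain ⟨B, hB0, hB⟩ := hp.exists_bdd
    rcases le_total B (s + 1) with h | h
    · rw [← sum_subset (range_subset_range.2 h), hB]
      intro i _ hi
      rw [mem_range, not_lt] at hi
      rw [hB0 i hi]
      rfl
    · rw [sum_subset (range_subset_range.2 h), hB]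
      intro i _ hi
      rw [mem_range, not_lt] at hi
      rw [hs i (by omega)]
      rfl
  · rw [eE_get, Dl.act_get, Dl.act_get]
    simp only [smul_eq_mul]
    rw [eE_get, eE_get]
    by_cases hj : j ≤ s
    · rw [if_pos hj, if_pos hj]
      by_cases hij : i + j ≤ s
      · rw [if_pos hij, hp.mul_hom _ _ (p (s - (i + j)) x), hp.mul_hom _ _ x,
          if_pos (by omega), if_pos (by omega)]
        have h3 : s - (i + j) = s - j - i := by omega
        rw [h3, hp.idem]
      · rw [if_neg hij, hp.mul_hom _ _ x, if_neg (by omega), map_zero]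
    · rw [if_neg hj, if_neg hj]
      simp

theorem eE_zero {s i : ℕ} (h : s < i) : eE V p s i = 0 := by
  refine LinearMap.ext fun φ => Dl.ext fun x => ?_
  rw [eE_get, if_neg (by omega)]
  rfl

instance finite_Dl [Module.Finite k A] [Module.Finite k V] : Module.Finite k (Dl k V A) :=
  inferInstanceAs (Module.Finite k (A →ₗ[k] V))

theorem finrank_Dl [Module.Finite k A] [Module.Finite k V] :
    finrank k (Dl k V A) = finrank k A * finrank k V :=
  Module.finrank_linearMap k k A V

/-- the dual of the ring is injective -/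
theorem injective_Dl_ring : Module.Injective A (Dl k V A) where
  out X Y _ _ _ _ f hf g := by
    let π : (Fin 1 → A) →ₗ[A] A := LinearMap.proj 0
    let ι : A →ₗ[A] (Fin 1 → A) := LinearMap.single A (fun _ => A) 0
    obtain ⟨h, hh⟩ := (injective_Dl_free (k := k) (A := A) (V := V) 1).out f hf
      ((dualMap k V π).comp g)
    refine ⟨(dualMap k V ι).comp h, fun x => Dl.ext fun a => ?_⟩
    show (h (f x)).get (ι a) = (g x).get a
    rw [hh x]
    show (g x).get (π (ι a)) = (g x).get a
    congr 1

/-- biduality -/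
noncomputable def bid (k : Type) [Field k] [Algebra k A] (V : Type) [AddCommGroup V] [Module k V] :
    A →ₗ[A] Dl k V (Dl k V A) where
  toFun a := Dl.mk
    { toFun := fun φ => φ.get a
      map_add' := fun φ ψ => rfl
      map_smul' := fun c φ => rfl }
  map_add' a b := Dl.ext fun φ => by
    show φ.get (a + b) = φ.get a + φ.get b
    rw [map_add]
  map_smul' a b := Dl.ext fun φ => rfl

theorem bid_get (a : A) (φ : Dl k V A) : (bid k V a).get φ = φ.get a := rfl

theorem exists_functional [Module.Finite k A] (hV : finrank k V = 1) {a : A} (ha : a ≠ 0) :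
    ∃ φ : Dl k V A, φ.get a ≠ 0 := by
  have h1 : ∃ v : V, v ≠ 0 := by
    by_contra h
    push Not at h
    have h2 : Subsingleton V := ⟨fun x y => by rw [h x, h y]⟩
    rw [finrank_zero_of_subsingleton] at hV
    exact zero_ne_one hV
  obtain ⟨v, hv⟩ := h1
  have h3 : ∃ f : Module.Dual k A, f a ≠ 0 := by
    by_contra h
    push Not at h
    exact ha ((Module.forall_dual_apply_eq_zero_iff k a).1 h)
  obtain ⟨f, hf⟩ := h3
  refine ⟨Dl.mk ((LinearMap.toSpanSingleton k V v).comp f), ?_⟩
  show f a • v ≠ 0
  exact smul_ne_zero hf hv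

theorem bid_bijective [Module.Finite k A] [Module.Finite k V] (hV : finrank k V = 1) :
    Function.Bijective (bid (A := A) k V) := by
  have hinj : Function.Injective (bid (A := A) k V) := by
    rw [injective_iff_map_eq_zero]
    intro a ha
    by_contra h
    obtain ⟨φ, hφ⟩ := exists_functional hV h
    apply hφ
    rw [← bid_get, ha, Dl.zero_get]
  refine ⟨hinj, ?_⟩
  have e1 : finrank k A = finrank k (Dl k V (Dl k V A)) := by
    have h1 : finrank k (Dl k V (Dl k V A)) = finrank k (Dl k V A) * finrank k V :=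
      Module.finrank_linearMap k k (Dl k V A) V
    rw [h1, finrank_Dl, hV, mul_one, mul_one]
  have fin2 : Module.Finite k (Dl k V (Dl k V A)) :=
    inferInstanceAs (Module.Finite k (Dl k V A →ₗ[k] V))
  exact (LinearMap.injective_iff_surjective_of_finrank_eq_finrank
    (f := (bid (A := A) k V).restrictScalars k) e1).1 hinj

variable [HasExt.{0} (ModuleCat.{0} A)]

theorem ext_iso {X : ModuleCat.{0} A} {Y Y' : Type} [AddCommGroup Y] [Module A Y]
    [AddCommGroup Y'] [Module A Y'] (α : Y ≃ₗ[A] Y') {n : ℕ}
    (h : Subsingleton (Ext X (ModuleCat.of A Y) n)) :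
    Subsingleton (Ext X (ModuleCat.of A Y') n) := by
  refine subsingleton_of_forall_eq 0 fun x => ?_
  have h1 : x = (x.comp (Ext.mk₀ (ModuleCat.ofHom α.symm.toLinearMap)) (add_zero n)).comp
      (Ext.mk₀ (ModuleCat.ofHom α.toLinearMap)) (add_zero n) := by
    rw [Ext.comp_assoc_of_third_deg_zero, Ext.mk₀_comp_mk₀]
    have h2 : ModuleCat.ofHom α.symm.toLinearMap ≫ ModuleCat.ofHom α.toLinearMap =
        𝟙 (ModuleCat.of A Y') := by
      ext y
      simp
    rw [h2, Ext.comp_mk₀_id]
  have h3 : x.comp (Ext.mk₀ (ModuleCat.ofHom α.symm.toLinearMap)) (add_zero n) = 0 :=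
    Subsingleton.elim _ _
  rw [h1, h3, Ext.zero_comp]

/-- the hypothesis of the conjecture gives the vanishing needed in the recursion -/
theorem van_of_ext [Module.Finite k A] [Module.Finite k V] (hV : finrank k V = 1) {r : ℕ}
    (h : ∀ i, 1 ≤ i → i ≤ r →
      Subsingleton (Ext (ModuleCat.of A (Dl k V A)) (ModuleCat.of A A) i)) :
    Van k A V (Dl k V A) r := fun i hi hir =>
  ext_iso (LinearEquiv.ofBijective (bid k V) (bid_bijective hV)) (h i hi hir)

end Pool.Agent.Helper89.TC
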