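import Pool.Agent.Helper89.TC.Hilb

/-!
Ext groups and extension of balanced forms.
-/

open Finset Module CategoryTheory CategoryTheory.Abelian

namespace Pool.Agent.Helper89.TC

/-- the `k`-dual (with values in `V`) of an `A`-module -/
def Dl (k V N : Type) [Field k] [AddCommGroup V] [Module k V] [AddCommGroup N] [Module k N] :
    Type := N →ₗ[k] V

section inst

variable (k V N : Type) [Field k] [AddCommGroup V] [Module k V] [AddCommGroup N] [Module k N]

noncomputable instance : AddCommGroup (Dl k V N) := inferInstanceAs (AddCommGroup (N →ₗ[k] V))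
noncomputable instance : Module k (Dl k V N) := inferInstanceAs (Module k (N →ₗ[k] V))

/-- from linear maps to the dual module -/
def Dl.mk {k V N : Type} [Field k] [AddCommGroup V] [Module k V] [AddCommGroup N] [Module k N]
    (φ : N →ₗ[k] V) : Dl k V N := φ

/-- from the dual module to linear maps -/
def Dl.get {k V N : Type} [Field k] [AddCommGroup V] [Module k V] [AddCommGroup N] [Module k N]
    (φ : Dl k V N) : N →ₗ[k] V := φ

variable {k V N}

theorem Dl.ext {φ ψ : Dl k V N} (h : ∀ x, φ.get x = ψ.get x) : φ = ψ :=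
  LinearMap.ext h

@[simp] theorem Dl.get_mk (φ : N →ₗ[k] V) : (Dl.mk φ).get = φ := rfl
@[simp] theorem Dl.mk_get (φ : Dl k V N) : Dl.mk φ.get = φ := rfl
@[simp] theorem Dl.add_get (φ ψ : Dl k V N) (x : N) : (φ + ψ).get x = φ.get x + ψ.get x := rfl
@[simp] theorem Dl.zero_get (x : N) : (0 : Dl k V N).get x = 0 := rfl
@[simp] theorem Dl.smul_get (c : k) (φ : Dl k V N) (x : N) : (c • φ).get x = c • φ.get x := rfl

end inst

section act

variable {k : Type} [Field k] {A : Type} [CommRing A] [Algebra k A]
variable {V : Type} [AddCommGroup V] [Module k V]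
variable {N : Type} [AddCommGroup N] [Module k N] [Module A N] [IsScalarTower k A N]

noncomputable instance (priority := 50) actSMul : SMul A (Dl k V N) :=
  ⟨fun a φ => Dl.mk (φ.get.comp (Algebra.lsmul k k N a))⟩

@[simp] theorem Dl.act_get (a : A) (φ : Dl k V N) (x : N) : (a • φ).get x = φ.get (a • x) := rfl

noncomputable instance (priority := 50) actModule : Module A (Dl k V N) where
  one_smul φ := Dl.ext fun x => by rw [Dl.act_get, one_smul]
  mul_smul a b φ := Dl.ext fun x => by
    rw [Dl.act_get, Dl.act_get, Dl.act_get, smul_smul, mul_comm]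
  smul_zero a := Dl.ext fun x => by rw [Dl.act_get, Dl.zero_get, Dl.zero_get]
  smul_add a φ ψ := Dl.ext fun x => by
    rw [Dl.act_get, Dl.add_get, Dl.add_get, Dl.act_get, Dl.act_get]
  add_smul a b φ := Dl.ext fun x => by
    rw [Dl.act_get, Dl.add_get, Dl.act_get, Dl.act_get, add_smul, map_add]
  zero_smul φ := Dl.ext fun x => by rw [Dl.act_get, zero_smul, map_zero, Dl.zero_get]

instance : IsScalarTower k A (Dl k V N) := ⟨fun c a φ => Dl.ext fun x => by
  rw [Dl.act_get, Dl.smul_get, Dl.act_get, smul_assoc, map_smul]⟩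

end act

variable {k : Type} [Field k] {A : Type} [CommRing A] [Algebra k A]
variable {V : Type} [AddCommGroup V] [Module k V]
variable {M : Type} [AddCommGroup M] [Module k M] [Module A M] [IsScalarTower k A M]
variable {N : Type} [AddCommGroup N] [Module k N] [Module A N] [IsScalarTower k A N]
variable {F : Type} [AddCommGroup F] [Module k F] [Module A F] [IsScalarTower k A F]
variable {W : Type} [AddCommGroup W] [Module k W] [Module A W] [IsScalarTower k A W]

/-- the dual of an `A`-linear map -/
noncomputable def dualMap (k V : Type) [Field k] [AddCommGroup V] [Module k V] [Algebra k A]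
    {M N : Type} [AddCommGroup M] [Module k M] [Module A M] [IsScalarTower k A M]
    [AddCommGroup N] [Module k N] [Module A N] [IsScalarTower k A N] (g : M →ₗ[A] N) :
    Dl k V N →ₗ[A] Dl k V M where
  toFun φ := Dl.mk (φ.get.comp (g.restrictScalars k))
  map_add' φ ψ := rfl
  map_smul' a φ := Dl.ext fun x => by
    show φ.get (a • g x) = φ.get (g (a • x))
    rw [g.map_smul]

theorem dualMap_get (g : M →ₗ[A] N) (φ : Dl k V N) (x : M) :
    (dualMap k V g φ).get x = φ.get (g x) := rfl

theorem dual_shortExact (g : F →ₗ[A] M) (hg : Function.Surjective g) :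
    (ModuleCat.shortComplexOfCompEqZero (dualMap k V g) (dualMap k V (LinearMap.ker g).subtype)
      (by
        refine LinearMap.ext fun φ => Dl.ext fun x => ?_
        show φ.get (g x.1) = 0
        rw [LinearMap.mem_ker.1 x.2, map_zero])).ShortExact := by
  refine ModuleCat.shortComplex_shortExact _ ?_ ?_ ?_
  · intro φ
    constructor
    · intro hφ
      have h1 : ∀ x, g x = 0 → φ.get x = 0 := by
        intro x hx
        have h2 : (dualMap k V (LinearMap.ker g).subtype φ) = 0 := hφ
        have h3 := congrArg (fun ψ => ψ.get ⟨x, hx⟩) h2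
        exact h3
      obtain ⟨t, ht⟩ := (g.restrictScalars k).exists_rightInverse_of_surjective
        (LinearMap.range_eq_top.2 hg)
      have ht' : ∀ x, g (t x) = x := fun x => LinearMap.congr_fun ht x
      refine ⟨Dl.mk (φ.get.comp t), Dl.ext fun x => ?_⟩
      show φ.get (t (g x)) = φ.get x
      have h2 := h1 (t (g x) - x) (by rw [map_sub, ht', sub_self])
      rwa [map_sub, sub_eq_zero] at h2
    · rintro ⟨ψ, rfl⟩
      refine Dl.ext fun x => ?_
      show ψ.get (g x.1) = 0
      rw [LinearMap.mem_ker.1 x.2, map_zero]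
  · intro φ ψ h
    refine Dl.ext fun x => ?_
    obtain ⟨x, rfl⟩ := hg x
    exact congrArg (fun χ : Dl k V F => χ.get x) h
  · intro φ
    obtain ⟨l, hl⟩ := ((LinearMap.ker g).subtype.restrictScalars k).exists_leftInverse_of_injective
      (LinearMap.ker_eq_bot.2 (LinearMap.ker g).injective_subtype)
    have hl' : ∀ x : LinearMap.ker g, l x.1 = x := fun x => LinearMap.congr_fun hl x
    refine ⟨Dl.mk (φ.get.comp l), Dl.ext fun x => ?_⟩
    show φ.get (l x.1) = φ.get x
    rw [hl']

/-- duals of free modules are injective -/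
theorem injective_Dl_free (m : ℕ) : Module.Injective A (Dl k V (Fin m → A)) where
  out X Y _ _ _ _ f hf g := by
    letI : Module k X := Module.compHom X (algebraMap k A)
    letI : Module k Y := Module.compHom Y (algebraMap k A)
    haveI : IsScalarTower k A X := IsScalarTower.of_algebraMap_smul fun r x => rfl
    haveI : IsScalarTower k A Y := IsScalarTower.of_algebraMap_smul fun r x => rfl
    obtain ⟨l, hl⟩ := (f.restrictScalars k).exists_leftInverse_of_injective
      (LinearMap.ker_eq_bot.2 hf)
    have hl' : ∀ x, l (f x) = x := fun x => LinearMap.congr_fun hl x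
    -- functionals
    let u : Fin m → (X →ₗ[k] V) := fun a =>
      { toFun := fun x => (g x).get (Pi.single a 1)
        map_add' := fun x y => by rw [map_add, Dl.add_get]
        map_smul' := fun c x => by
          rw [← algebraMap_smul A c x, map_smul, algebraMap_smul, Dl.smul_get]
          rfl }
    have u_apply : ∀ a x, u a x = (g x).get (Pi.single a 1) := fun _ _ => rfl
    let w : Fin m → (Y →ₗ[k] V) := fun a => (u a).comp l
    let G : Y →ₗ[A] Dl k V (Fin m → A) :=
      { toFun := fun y => Dl.mk
          { toFun := fun v => ∑ a, w a (v a • y)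
            map_add' := fun v v' => by
              simp only [Pi.add_apply, add_smul, map_add, sum_add_distrib]
            map_smul' := fun c v => by
              simp only [Pi.smul_apply, smul_assoc, map_smul, smul_sum, RingHom.id_apply] }
        map_add' := fun y y' => Dl.ext fun v => by
          show ∑ a, w a (v a • (y + y')) = ∑ a, w a (v a • y) + ∑ a, w a (v a • y')
          simp only [smul_add, map_add, sum_add_distrib]
        map_smul' := fun c y => Dl.ext fun v => by
          show ∑ a, w a (v a • c • y) = ∑ a, w a ((c • v) a • y)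
          refine sum_congr rfl fun a _ => ?_
          rw [Pi.smul_apply, smul_smul, smul_eq_mul, mul_comm] }
    refine ⟨G, fun x => Dl.ext fun v => ?_⟩
    show ∑ a, w a (v a • f x) = (g x).get v
    have hv : v = ∑ a, v a • (Pi.single a (1 : A) : Fin m → A) := by
      funext c
      simp [Finset.sum_apply, Pi.single_apply]
    conv_rhs => rw [hv, map_sum]
    refine sum_congr rfl fun a _ => ?_
    show u a (l (v a • f x)) = _
    rw [← map_smul f, hl', u_apply, map_smul, Dl.act_get]

variable [HasExt.{0} (ModuleCat.{0} A)]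

theorem ext_lift {Y : ModuleCat.{0} A} (g : F →ₗ[A] M) (hg : Function.Surjective g)
    (hE : Subsingleton (Ext (ModuleCat.of A M) Y 1))
    (h : LinearMap.ker g →ₗ[A] Y) : ∃ h' : F →ₗ[A] Y, ∀ x : LinearMap.ker g, h' x.1 = h x := by
  have hS := g.shortExact_shortComplexKer hg
  obtain ⟨x₂, hx₂⟩ := Ext.contravariant_sequence_exact₁ hS Y
    (Ext.mk₀ (ModuleCat.ofHom h)) (n₁ := 1) (by norm_num) (Subsingleton.elim _ _)
  obtain ⟨φ, rfl⟩ := (Ext.mk₀_bijective _ _).2 x₂
  rw [Ext.mk₀_comp_mk₀] at hx₂
  have h1 := (Ext.mk₀_bijective _ _).1 hx₂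
  refine ⟨φ.hom, fun x => ?_⟩
  exact LinearMap.congr_fun (congrArg ModuleCat.Hom.hom h1) x

theorem ext_shift_left {Y : ModuleCat.{0} A} {m n : ℕ} (g : (Fin m → A) →ₗ[A] M)
    (hg : Function.Surjective g)
    (hE : Subsingleton (Ext (ModuleCat.of A M) Y (n + 2))) :
    Subsingleton (Ext (ModuleCat.of A (LinearMap.ker g)) Y (n + 1)) := by
  have hS := g.shortExact_shortComplexKer hg
  refine subsingleton_of_forall_eq 0 fun x₁ => ?_
  obtain ⟨x₂, hx₂⟩ := Ext.contravariant_sequence_exact₁ hS Y x₁ (n₁ := n + 2) (by omega)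
    (Subsingleton.elim _ _)
  have hproj : Projective (ModuleCat.of A (Fin m → A)) :=
    (IsProjective.iff_projective (Fin m → A)).1 inferInstance
  have h0 : x₂ = 0 := Ext.eq_zero_of_projective (P := ModuleCat.of A (Fin m → A)) x₂
  rw [← hx₂, h0, Ext.comp_zero]

theorem ext_shift_right {X : ModuleCat.{0} A} {m n : ℕ} (g : (Fin m → A) →ₗ[A] M)
    (hg : Function.Surjective g)
    (hE : Subsingleton (Ext X (ModuleCat.of A (Dl k V M)) (n + 2))) :
    Subsingleton (Ext X (ModuleCat.of A (Dl k V (LinearMap.ker g))) (n + 1)) := by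
  have hS := dual_shortExact (k := k) (V := V) g hg
  refine subsingleton_of_forall_eq 0 fun x₃ => ?_
  obtain ⟨x₂, hx₂⟩ := Ext.covariant_sequence_exact₃ X hS x₃ (n₁ := n + 2) (by omega)
    (Subsingleton.elim _ _)
  have hinj : Injective (ModuleCat.of A (Dl k V (Fin m → A))) :=
    (Module.injective_iff_injective_object A _).1 (injective_Dl_free m)
  have h0 : x₂ = 0 := Ext.eq_zero_of_injective (I := ModuleCat.of A (Dl k V (Fin m → A))) x₂
  rw [← hx₂, h0, Ext.zero_comp]

/-- extension of balanced forms -/
theorem form_lift (g : F →ₗ[A] M) (hg : Function.Surjective g)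
    (hE : Subsingleton (Ext (ModuleCat.of A M) (ModuleCat.of A (Dl k V N)) 1))
    (γ : (LinearMap.ker g) →ₗ[k] N →ₗ[k] V) (hγ : Bal A γ) :
    ∃ γ' : F →ₗ[k] N →ₗ[k] V, Bal A γ' ∧ ∀ (x : LinearMap.ker g) y, γ' x.1 y = γ x y := by
  let h : LinearMap.ker g →ₗ[A] (ModuleCat.of A (Dl k V N)) :=
    { toFun := fun x => Dl.mk (γ x)
      map_add' := fun x y => by rw [map_add]; rfl
      map_smul' := fun a x => Dl.ext fun y => hγ a x y }
  obtain ⟨h', hh'⟩ := ext_lift g hg hE h
  let γ' : F →ₗ[k] N →ₗ[k] V :=
    { toFun := fun x => Dl.get (h' x)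
      map_add' := fun x y => by rw [map_add]; rfl
      map_smul' := fun c x => by
        rw [← algebraMap_smul A c x, map_smul]
        refine LinearMap.ext fun y => ?_
        show (Dl.get (h' x)) (algebraMap k A c • y) = c • (Dl.get (h' x)) y
        rw [algebraMap_smul, map_smul] }
  refine ⟨γ', fun a x y => ?_, fun x y => ?_⟩
  · show (Dl.get (h' (a • x))) y = (Dl.get (h' x)) (a • y)
    rw [map_smul]
    rfl
  · show (Dl.get (h' x.1)) y = γ x y
    rw [hh' x]
    rfl

end Pool.Agent.Helper89.TC
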