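import Pool.Agent.Helper89.TC.Seq

/-!
Free modules: dimensions of spaces of forms.
-/

open Finset Module

namespace Pool.Agent.Helper89.TC

variable {k : Type} [Field k] {A : Type} [CommRing A] [Algebra k A]
variable {p : ℕ → A →ₗ[k] A}
variable {V : Type} [AddCommGroup V] [Module k V]
variable {N : Type} [AddCommGroup N] [Module k N] [Module A N]
variable {f : ℕ → N →ₗ[k] N}
variable {m : ℕ} {d : Fin m → ℕ}

/-- projections of the grading of `A^m`, generators in degrees `d a` -/
noncomputable def eF (p : ℕ → A →ₗ[k] A) (d : Fin m → ℕ) (i : ℕ) :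
    (Fin m → A) →ₗ[k] (Fin m → A) :=
  LinearMap.pi fun a => if d a ≤ i then (p (i - d a)).comp (LinearMap.proj a) else 0

theorem eF_apply (i : ℕ) (x : Fin m → A) (a : Fin m) :
    eF p d i x a = if d a ≤ i then p (i - d a) (x a) else 0 := by
  simp only [eF, LinearMap.pi_apply]
  split_ifs <;> simp

theorem isGr_eF (hp : IsGr p p) (d : Fin m → ℕ) : IsGr p (eF p d) := by
  refine ⟨fun i j x => ?_, ?_, fun i j a x => ?_⟩
  · funext b
    rw [eF_apply]
    split_ifs with h1 h2 h2
    · rw [eF_apply, h2, if_pos (h2 ▸ h1), hp.idem]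
    · rw [eF_apply]
      split_ifs with h3
      · rw [hp.orth' (by omega)]
        rfl
      · rw [map_zero]
        rfl
    · subst h2
      rw [eF_apply, if_neg h1]
    · rfl
  · obtain ⟨B, hB0, hB⟩ := hp.exists_bdd
    refine ⟨B + ∑ a, d a, fun x => ?_⟩
    funext b
    rw [Finset.sum_apply]
    have h1 : ∀ i ∈ range (B + ∑ a, d a), eF p d i x b =
        if d b ≤ i then p (i - d b) (x b) else 0 := fun i _ => eF_apply i x b
    rw [sum_congr rfl h1, ← sum_filter]
    have hdb : d b ≤ ∑ a, d a := single_le_sum (f := d) (fun i _ => Nat.zero_le _) (mem_univ b)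
    have h2 : ∑ i ∈ (range (B + ∑ a, d a)).filter (fun i => d b ≤ i), p (i - d b) (x b) =
        ∑ i ∈ range (B + ∑ a, d a - d b), p i (x b) := by
      refine sum_nbij' (fun i => i - d b) (fun i => i + d b) ?_ ?_ ?_ ?_ ?_
      · intro i hi
        simp only [mem_filter, mem_range] at hi ⊢
        omega
      · intro i hi
        simp only [mem_filter, mem_range] at hi ⊢
        omega
      · intro i hi
        simp only [mem_filter, mem_range] at hi
        omega
      · intro i hi
        omega
      · intro i hi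
        rfl
    rw [h2, ← sum_subset (range_subset_range.2 (show B ≤ B + ∑ a, d a - d b by omega)), hB]
    intro i _ hi
    rw [mem_range, not_lt] at hi
    rw [hB0 i hi]
    rfl
  · funext b
    rw [eF_apply, Pi.smul_apply, eF_apply, smul_eq_mul]
    split_ifs with h1 h2 h3
    · have h3 : i + j - d b = i + (j - d b) := by omega
      have h4 := hp.smul i (j - d b) a (x b)
      rw [h3]
      exact h4
    · rw [mul_zero, map_zero]
    · omega
    · rw [mul_zero]

theorem eF_single (h1 : p 0 1 = 1) (a : Fin m) :
    eF p d (d a) (Pi.single a (1 : A)) = Pi.single a 1 := by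
  funext b
  rw [eF_apply]
  by_cases h : b = a
  · subst h
    simp [h1]
  · rw [Pi.single_eq_of_ne h, map_zero]
    simp

theorem Ds_shift (hf : IsGr p f) (d n : ℕ) :
    finrank k (Ds V f d n) = if d ≤ n then finrank k (Ds V f 0 (n - d)) else 0 := by
  split_ifs with h
  · have : Ds V f d n = Ds V f 0 (n - d) := by
      ext φ
      constructor
      · intro hφ j y hj
        exact hφ j y (by omega)
      · intro hφ j y hj
        exact hφ j y (by omega)
    rw [this]
  · have : Ds V f d n = ⊥ := by
      rw [eq_bot_iff]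
      intro φ hφ
      rw [Submodule.mem_bot]
      refine hf.ext_hom fun j y => ?_
      rw [LinearMap.zero_apply]
      exact hφ j y (by omega)
    rw [this, finrank_bot]

/-- the form on `A^m × N` with given values on the generators -/
noncomputable def mkForm [IsScalarTower k A N] (φ : Fin m → (N →ₗ[k] V)) :
    (Fin m → A) →ₗ[k] N →ₗ[k] V :=
  LinearMap.mk₂ k (fun x y => ∑ a, φ a (x a • y))
    (fun x x' y => by simp only [Pi.add_apply, add_smul, map_add, sum_add_distrib])
    (fun c x y => by simp only [Pi.smul_apply, smul_assoc, map_smul, smul_sum])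
    (fun x y y' => by simp only [smul_add, map_add, sum_add_distrib])
    (fun c x y => by
      have h : ∀ a, x a • c • y = c • x a • y := fun a => by
        rw [← algebraMap_smul A c y, ← algebraMap_smul A c (x a • y), smul_smul, smul_smul,
          mul_comm]
      simp only [h, map_smul, smul_sum])

theorem mkForm_apply [IsScalarTower k A N] (φ : Fin m → (N →ₗ[k] V)) (x : Fin m → A) (y : N) :
    mkForm (V := V) φ x y = ∑ a, φ a (x a • y) := rfl

theorem mkForm_bal [IsScalarTower k A N] (φ : Fin m → (N →ₗ[k] V)) :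
    Bal A (mkForm (V := V) (A := A) φ) := by
  intro a x y
  rw [mkForm_apply, mkForm_apply]
  refine sum_congr rfl fun b _ => ?_
  rw [Pi.smul_apply, smul_eq_mul, smul_smul, mul_comm]

theorem form_eq_mkForm [IsScalarTower k A N] {b : (Fin m → A) →ₗ[k] N →ₗ[k] V} (hb : Bal A b) :
    b = mkForm (V := V) (A := A) fun a => b (Pi.single a 1) := by
  refine LinearMap.ext fun x => LinearMap.ext fun y => ?_
  rw [mkForm_apply]
  have hx : x = ∑ a, x a • (Pi.single a (1 : A) : Fin m → A) := by
    funext c
    simp [Finset.sum_apply, Pi.single_apply]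
  conv_lhs => rw [hx]
  rw [map_sum, LinearMap.sum_apply]
  exact sum_congr rfl fun a _ => hb _ _ _

theorem finrank_BAn_free [IsScalarTower k A N] [Module.Finite k N] [Module.Finite k V]
    (hp : IsGr p p) (h1 : p 0 1 = 1) (hf : IsGr p f) (n : ℕ) :
    finrank k (BAn A V (eF p d) f n) = ∑ a, finrank k (Ds V f (d a) n) := by
  have m1 : ∀ (b : BAn A V (eF p d) f n) (a : Fin m), b.1 (Pi.single a 1) ∈ Ds V f (d a) n := by
    intro b a j y h
    rw [← eF_single (d := d) h1 a]
    exact b.2.2 _ _ _ _ h
  let Φ : BAn A V (eF p d) f n →ₗ[k] (∀ a, Ds V f (d a) n) :=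
    { toFun := fun b a => ⟨b.1 (Pi.single a 1), m1 b a⟩
      map_add' := fun b c => rfl
      map_smul' := fun r b => rfl }
  have hΦ : Function.Bijective Φ := by
    constructor
    · intro b c hbc
      apply Subtype.ext
      rw [form_eq_mkForm b.2.1, form_eq_mkForm c.2.1]
      congr 1
      funext a
      exact congrArg Subtype.val (congrFun hbc a)
    · intro φ
      refine ⟨⟨mkForm (V := V) (A := A) fun a => (φ a).1, mkForm_bal _, fun i j x y hij => ?_⟩, ?_⟩
      · rw [mkForm_apply]
        refine sum_eq_zero fun a _ => ?_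
        rw [eF_apply]
        split_ifs with hd
        · rw [← hf.smul (i - d a) j (x a) y]
          exact (φ a).2 _ _ (by omega)
        · rw [zero_smul, map_zero]
      · funext a
        apply Subtype.ext
        refine LinearMap.ext fun y => ?_
        show mkForm (V := V) (A := A) (fun a => (φ a).1) (Pi.single a 1) y = (φ a).1 y
        rw [mkForm_apply, sum_eq_single a]
        · rw [Pi.single_eq_same, one_smul]
        · intro b _ hb
          rw [Pi.single_eq_of_ne hb, zero_smul, map_zero]
        · intro h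
          exact absurd (mem_univ a) h
  rw [(LinearEquiv.ofBijective Φ hΦ).finrank_eq, finrank_pi_fintype]

/-- forms on `N × A` are functionals on `N` -/
theorem finrank_BAn_ring [IsScalarTower k A N] [Module.Finite k N] [Module.Finite k V]
    [Module.Finite k A]
    (hp : IsGr p p) (h1 : p 0 1 = 1) (hf : IsGr p f) (n : ℕ) :
    finrank k (BAn A V f p n) = finrank k (Ds V f 0 n) := by
  let Ψ : BAn A V f p n →ₗ[k] Ds V f 0 n :=
    { toFun := fun b => ⟨b.1.flip 1, fun j y h => by
        rw [LinearMap.flip_apply, ← h1]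
        exact b.2.2 _ _ _ _ (by omega)⟩
      map_add' := fun b c => rfl
      map_smul' := fun r b => rfl }
  have hΨ : Function.Bijective Ψ := by
    constructor
    · intro b c hbc
      apply Subtype.ext
      refine LinearMap.ext fun x => LinearMap.ext fun a => ?_
      have e1 : b.1 x a = b.1 (a • x) 1 := by rw [b.2.1, smul_eq_mul, mul_one]
      have e2 : c.1 x a = c.1 (a • x) 1 := by rw [c.2.1, smul_eq_mul, mul_one]
      rw [e1, e2]
      exact LinearMap.congr_fun (congrArg Subtype.val hbc) (a • x)
    · intro φ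
      let b : N →ₗ[k] A →ₗ[k] V := LinearMap.mk₂ k (fun x a => φ.1 (a • x))
        (fun x x' y => by simp only [smul_add, map_add])
        (fun c x y => by
          have h : y • c • x = c • y • x := by
            rw [← algebraMap_smul A c x, ← algebraMap_smul A c (y • x), smul_smul, smul_smul,
              mul_comm]
          rw [h, map_smul])
        (fun x y y' => by simp only [add_smul, map_add])
        (fun c x y => by simp only [smul_assoc, map_smul])
      refine ⟨⟨b, fun a x y => ?_, fun i j x y hij => ?_⟩, ?_⟩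
      · show φ.1 (y • a • x) = φ.1 ((a • y) • x)
        rw [smul_smul, smul_eq_mul, mul_comm]
      · show φ.1 (p j y • f i x) = 0
        rw [← hf.smul j i y x]
        exact φ.2 _ _ (by omega)
      · apply Subtype.ext
        refine LinearMap.ext fun x => ?_
        show φ.1 ((1 : A) • x) = φ.1 x
        rw [one_smul]
  exact (LinearEquiv.ofBijective Ψ hΨ).finrank_eq

section sym

/-- projection to the `a`-th coordinate line -/
noncomputable def P (k : Type) [Field k] {A : Type} [CommRing A] [Algebra k A] {m : ℕ}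
    (a : Fin m) : (Fin m → A) →ₗ[k] (Fin m → A) :=
  (LinearMap.single k (fun _ => A) a).comp (LinearMap.proj a)

theorem P_apply (a : Fin m) (x : Fin m → A) : P k a x = Pi.single a (x a) := rfl

theorem P_smul (a : Fin m) (c : A) (x : Fin m → A) : P k a (c • x) = c • P k a x := by
  rw [P_apply, P_apply, Pi.smul_apply, Pi.single_smul]

theorem P_eF (a : Fin m) (i : ℕ) (x : Fin m → A) : P k a (eF p d i x) = eF p d i (P k a x) := by
  funext b
  rw [eF_apply, P_apply, P_apply]
  by_cases h : b = a
  · subst h
    rw [Pi.single_eq_same, Pi.single_eq_same, eF_apply]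
  · rw [Pi.single_eq_of_ne h, Pi.single_eq_of_ne h, map_zero]
    simp

theorem P_P (a b : Fin m) (x : Fin m → A) : P k a (P k b x) = if a = b then P k b x else 0 := by
  rw [P_apply, P_apply]
  split_ifs with h
  · subst h
    rw [Pi.single_eq_same]
  · rw [Pi.single_eq_of_ne h, Pi.single_zero]

theorem sum_P (x : Fin m → A) : ∑ a, P k a x = x := by
  funext b
  rw [Finset.sum_apply, sum_eq_single b]
  · rw [P_apply, Pi.single_eq_same]
  · intro a _ ha
    rw [P_apply, Pi.single_eq_of_ne (Ne.symm ha)]
  · intro h
    exact absurd (mem_univ b) h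

/-- antisymmetric signs -/
def sg (k : Type) [Field k] {m : ℕ} (a b : Fin m) : k :=
  if a < b then 1 else if b < a then -1 else 0

theorem sg_swap (a b : Fin m) : sg k b a = - sg k a b := by
  unfold sg
  rcases lt_trichotomy a b with h | h | h
  · rw [if_neg (not_lt.2 h.le), if_pos h, if_pos h]
  · subst h
    simp
  · rw [if_pos h, if_neg (not_lt.2 h.le), if_pos h, neg_neg]

theorem sg_self (a : Fin m) : sg k a a = 0 := by
  simp [sg]

theorem sg_sq {a b : Fin m} (h : a ≠ b) : sg k a b * sg k a b = 1 := by
  unfold sg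
  rcases lt_trichotomy a b with h' | h' | h'
  · rw [if_pos h', one_mul]
  · exact absurd h' h
  · rw [if_neg (not_lt.2 h'.le), if_pos h']
    ring

/-- change the signs of the blocks of a form -/
noncomputable def Psi (b : (Fin m → A) →ₗ[k] (Fin m → A) →ₗ[k] V) :
    (Fin m → A) →ₗ[k] (Fin m → A) →ₗ[k] V :=
  ∑ i, ∑ j, sg k i j • b.compl₁₂ (P k i) (P k j)

theorem Psi_apply (b : (Fin m → A) →ₗ[k] (Fin m → A) →ₗ[k] V) (x y : Fin m → A) :
    Psi b x y = ∑ i, ∑ j, sg k i j • b (P k i x) (P k j y) := by
  simp [Psi, LinearMap.sum_apply]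

theorem Psi_P (b : (Fin m → A) →ₗ[k] (Fin m → A) →ₗ[k] V) (x y : Fin m → A) (i j : Fin m) :
    Psi b (P k i x) (P k j y) = sg k i j • b (P k i x) (P k j y) := by
  rw [Psi_apply, sum_eq_single i, sum_eq_single j]
  · rw [P_P, if_pos rfl, P_P, if_pos rfl]
  · intro c _ hc
    rw [P_P (a := c), if_neg hc, map_zero, smul_zero]
  · intro h
    exact absurd (mem_univ j) h
  · intro c _ hc
    refine sum_eq_zero fun l _ => ?_
    rw [P_P (a := c), if_neg hc, map_zero, LinearMap.zero_apply, smul_zero]
  · intro h
    exact absurd (mem_univ i) h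

theorem form_sum_P (b : (Fin m → A) →ₗ[k] (Fin m → A) →ₗ[k] V) (x y : Fin m → A) :
    b x y = ∑ i, ∑ j, b (P k i x) (P k j y) := by
  conv_lhs => rw [← sum_P (k := k) x, ← sum_P (k := k) y]
  rw [map_sum b, LinearMap.sum_apply]
  refine sum_congr rfl fun i _ => ?_
  rw [map_sum]

theorem form_ext_P {b c : (Fin m → A) →ₗ[k] (Fin m → A) →ₗ[k] V}
    (h : ∀ i j x y, b (P k i x) (P k j y) = c (P k i x) (P k j y)) : b = c := by
  refine LinearMap.ext fun x => LinearMap.ext fun y => ?_
  rw [form_sum_P b, form_sum_P c]
  exact sum_congr rfl fun i _ => sum_congr rfl fun j _ => h i j x y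

theorem Psi_mem {b : (Fin m → A) →ₗ[k] (Fin m → A) →ₗ[k] V} {n : ℕ} {s : k}
    (hb : b ∈ BS A V s (eF p d) n) : Psi b ∈ BS A V (-s) (eF p d) n := by
  refine ⟨?_, fun x y => ?_⟩
  · refine Submodule.sum_mem _ fun i _ => Submodule.sum_mem _ fun j _ => smul_mem_BAn _ ?_
    exact compl_mem hb.1 (P k i) (P k j) (P_smul i) (P_smul j) (P_eF i) (P_eF j)
  · rw [Psi_apply, Psi_apply, sum_comm, smul_sum]
    refine sum_congr rfl fun i _ => ?_
    rw [smul_sum]
    refine sum_congr rfl fun j _ => ?_
    rw [hb.2 (P k i x) (P k j y), sg_swap i j]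
    module

theorem diag_zero (h2 : (2 : k) ≠ 0) {b : (Fin m → A) →ₗ[k] (Fin m → A) →ₗ[k] V} {n : ℕ}
    (hb : b ∈ BS A V (-1 : k) (eF p d) n) (i : Fin m) (x y : Fin m → A) :
    b (P k i x) (P k i y) = 0 := by
  have h3 : ∀ u v : A, b (Pi.single i u) (Pi.single i v) = b (Pi.single i (v * u)) (Pi.single i 1) := by
    intro u v
    have e1 : (Pi.single i v : Fin m → A) = v • Pi.single i 1 := by
      rw [← Pi.single_smul, smul_eq_mul, mul_one]
    have e2 : (Pi.single i (v * u) : Fin m → A) = v • Pi.single i u := by
      rw [← Pi.single_smul, smul_eq_mul]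
    rw [e2, hb.1.1, ← e1]
  have h4 : b (P k i x) (P k i y) = b (P k i y) (P k i x) := by
    rw [P_apply, P_apply, h3 (x i) (y i), h3 (y i) (x i), mul_comm (y i)]
  have h5 := hb.2 (P k i x) (P k i y)
  rw [← h4] at h5
  have h6 : (2 : k) • b (P k i x) (P k i y) = 0 := by
    linear_combination (norm := module) h5
  exact (smul_eq_zero.1 h6).resolve_left h2

theorem Psi_Psi (h2 : (2 : k) ≠ 0) {b : (Fin m → A) →ₗ[k] (Fin m → A) →ₗ[k] V} {n : ℕ}
    (hb : b ∈ BS A V (-1 : k) (eF p d) n) : Psi (Psi b) = b := by
  refine form_ext_P fun i j x y => ?_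
  rw [Psi_P, Psi_P]
  by_cases h : i = j
  · subst h
    rw [diag_zero h2 hb, smul_zero, smul_zero]
  · rw [smul_smul, sg_sq h, one_smul]

/-- diagonal forms -/
noncomputable def diagForm (φ : Fin m → (A →ₗ[k] V)) :
    (Fin m → A) →ₗ[k] (Fin m → A) →ₗ[k] V :=
  LinearMap.mk₂ k (fun x y => ∑ a, φ a (x a * y a))
    (fun x x' y => by simp only [Pi.add_apply, add_mul, map_add, sum_add_distrib])
    (fun c x y => by simp only [Pi.smul_apply, smul_mul_assoc, map_smul, smul_sum])
    (fun x y y' => by simp only [Pi.add_apply, mul_add, map_add, sum_add_distrib])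
    (fun c x y => by simp only [Pi.smul_apply, mul_smul_comm, map_smul, smul_sum])

theorem diagForm_apply (φ : Fin m → (A →ₗ[k] V)) (x y : Fin m → A) :
    diagForm φ x y = ∑ a, φ a (x a * y a) := rfl

theorem finrank_BS_free [Module.Finite k A] [Module.Finite k V]
    (hp : IsGr p p) (h1 : p 0 1 = 1) (h2 : (2 : k) ≠ 0) (n : ℕ) :
    finrank k (BS A V (1 : k) (eF p d) n) = finrank k (BS A V (-1 : k) (eF p d) n) +
      ∑ a, finrank k (Ds V p (2 * d a) n) := by
  let Ψ : BS A V (1 : k) (eF p d) n →ₗ[k] BS A V (-1 : k) (eF p d) n :=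
    { toFun := fun b => ⟨Psi b.1, Psi_mem b.2⟩
      map_add' := fun b c => by
        apply Subtype.ext
        refine LinearMap.ext fun x => LinearMap.ext fun y => ?_
        show Psi (b.1 + c.1) x y = Psi b.1 x y + Psi c.1 x y
        rw [Psi_apply, Psi_apply, Psi_apply, ← sum_add_distrib]
        refine sum_congr rfl fun i _ => ?_
        rw [← sum_add_distrib]
        refine sum_congr rfl fun j _ => ?_
        rw [LinearMap.add_apply, LinearMap.add_apply, smul_add]
      map_smul' := fun r b => by
        apply Subtype.ext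
        refine LinearMap.ext fun x => LinearMap.ext fun y => ?_
        show Psi (r • b.1) x y = r • Psi b.1 x y
        rw [Psi_apply, Psi_apply, smul_sum]
        refine sum_congr rfl fun i _ => ?_
        rw [smul_sum]
        refine sum_congr rfl fun j _ => ?_
        rw [LinearMap.smul_apply, LinearMap.smul_apply]
        module }
  have hΨ : ∀ b, (Ψ b).1 = Psi b.1 := fun _ => rfl
  have hsurj : Function.Surjective Ψ := by
    intro b
    have h3 : Psi b.1 ∈ BS A V (1 : k) (eF p d) n := by
      have h4 := Psi_mem b.2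
      rwa [neg_neg] at h4
    exact ⟨⟨Psi b.1, h3⟩, Subtype.ext (Psi_Psi h2 b.2)⟩
  have hoff : ∀ b ∈ LinearMap.ker Ψ, ∀ i j x y, i ≠ j → b.1 (P k i x) (P k j y) = 0 := by
    intro b hb i j x y hij
    have h3 : Psi b.1 = 0 := congrArg Subtype.val (LinearMap.mem_ker.1 hb)
    have h4 : sg k i j • b.1 (P k i x) (P k j y) = 0 := by
      rw [← Psi_P, h3]
      rfl
    refine (smul_eq_zero.1 h4).resolve_left fun h5 => ?_
    have h6 := sg_sq (k := k) hij
    rw [h5, mul_zero] at h6
    exact zero_ne_one h6
  have mΘ : ∀ (b : LinearMap.ker Ψ) (a : Fin m),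
      (b.1.1 (Pi.single a 1)).comp (LinearMap.single k (fun _ => A) a) ∈ Ds V p (2 * d a) n := by
    intro b a j y hj
    rw [LinearMap.comp_apply, ← eF_single (d := d) h1 a]
    have e1 : LinearMap.single k (fun _ => A) a (p j y) =
        eF p d (d a + j) (LinearMap.single k (fun _ => A) a (p j y)) := by
      funext c
      rw [eF_apply]
      by_cases hc : c = a
      · subst hc
        rw [if_pos (by omega), Nat.add_sub_cancel_left]
        simp [hp.idem]
      · simp [LinearMap.single_apply, Pi.single_eq_of_ne hc]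
    rw [e1]
    exact b.1.2.1.2 _ _ _ _ (by omega)
  let Θ : LinearMap.ker Ψ →ₗ[k] (∀ a, Ds V p (2 * d a) n) :=
    { toFun := fun b a => ⟨_, mΘ b a⟩
      map_add' := fun b c => rfl
      map_smul' := fun r b => rfl }
  have hΘ : ∀ b a x, (Θ b a).1 x = b.1.1 (Pi.single a 1) (Pi.single a x) := fun _ _ _ => rfl
  have hdiag : ∀ (b : LinearMap.ker Ψ) (x y : Fin m → A),
      b.1.1 x y = ∑ a, (Θ b a).1 (x a * y a) := by
    intro b x y
    rw [form_sum_P (k := k) b.1.1 x y]
    refine sum_congr rfl fun i _ => ?_
    rw [sum_eq_single i]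
    · rw [hΘ, P_apply, P_apply]
      have e1 : (Pi.single i (x i) : Fin m → A) = x i • Pi.single i 1 := by
        rw [← Pi.single_smul, smul_eq_mul, mul_one]
      have e2 : (Pi.single i (x i * y i) : Fin m → A) = x i • Pi.single i (y i) := by
        rw [← Pi.single_smul, smul_eq_mul]
      rw [e1, e2, b.1.2.1.1]
    · intro j _ hj
      exact hoff _ b.2 i j x y (Ne.symm hj)
    · intro h
      exact absurd (mem_univ i) h
  have hΘb : Function.Bijective Θ := by
    constructor
    · intro b c hbc
      apply Subtype.ext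
      apply Subtype.ext
      refine LinearMap.ext fun x => LinearMap.ext fun y => ?_
      rw [hdiag, hdiag, hbc]
    · intro φ
      have hm : diagForm (fun a => (φ a).1) ∈ BS A V (1 : k) (eF p d) n := by
        refine ⟨⟨fun a x y => ?_, fun i j x y hij => ?_⟩, fun x y => ?_⟩
        · rw [diagForm_apply, diagForm_apply]
          refine sum_congr rfl fun c _ => ?_
          rw [Pi.smul_apply, Pi.smul_apply, smul_eq_mul, smul_eq_mul]
          congr 1
          ring
        · rw [diagForm_apply]
          refine sum_eq_zero fun c _ => ?_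
          rw [eF_apply, eF_apply]
          split_ifs with h3 h4
          · have e1 := hp.smul (i - d c) (j - d c) (x c) (y c)
            rw [smul_eq_mul] at e1
            rw [← e1]
            exact (φ c).2 _ _ (by omega)
          · rw [mul_zero, map_zero]
          · rw [zero_mul, map_zero]
          · rw [zero_mul, map_zero]
        · rw [one_smul, diagForm_apply, diagForm_apply]
          refine sum_congr rfl fun c _ => ?_
          rw [mul_comm (x c)]
      have hk : (⟨_, hm⟩ : BS A V (1 : k) (eF p d) n) ∈ LinearMap.ker Ψ := by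
        rw [LinearMap.mem_ker]
        apply Subtype.ext
        show Psi (diagForm fun a => (φ a).1) = 0
        refine form_ext_P fun i j x y => ?_
        rw [Psi_P, LinearMap.zero_apply, LinearMap.zero_apply]
        by_cases h : i = j
        · subst h
          rw [sg_self, zero_smul]
        · rw [diagForm_apply, sum_eq_zero, smul_zero]
          intro c _
          rw [P_apply, P_apply]
          by_cases hc : c = i
          · subst hc
            rw [Pi.single_eq_of_ne h, mul_zero, map_zero]
          · rw [Pi.single_eq_of_ne hc, zero_mul, map_zero]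
      refine ⟨⟨_, hk⟩, ?_⟩
      funext a
      apply Subtype.ext
      refine LinearMap.ext fun x => ?_
      show diagForm (fun a => (φ a).1) (Pi.single a 1) (Pi.single a x) = (φ a).1 x
      rw [diagForm_apply, sum_eq_single a]
      · rw [Pi.single_eq_same, Pi.single_eq_same, one_mul]
      · intro b _ hb
        rw [Pi.single_eq_of_ne hb, zero_mul, map_zero]
      · intro h
        exact absurd (mem_univ a) h
  have e1 := LinearMap.finrank_range_add_finrank_ker (V := BS A V (1 : k) (eF p d) n)
    (V₂ := BS A V (-1 : k) (eF p d) n) Ψ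
  rw [LinearMap.range_eq_top.2 hsurj, finrank_top,
    (LinearEquiv.ofBijective Θ hΘb).finrank_eq, finrank_pi_fintype] at e1
  exact e1.symm

end sym

end Pool.Agent.Helper89.TC
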