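import Pool.Agent.Helper89.TC.Free

/-!
Additivity of Hilbert functions, homogeneous generators, syzygies.
-/

open Finset Module

namespace Pool.Agent.Helper89.TC

theorem finrank3 {k : Type} [Field k] {V₁ V₂ V₃ : Type}
    [AddCommGroup V₁] [Module k V₁] [AddCommGroup V₂] [Module k V₂]
    [AddCommGroup V₃] [Module k V₃]
    [Module.Finite k V₁] [Module.Finite k V₂] [Module.Finite k V₃]
    (f₁ : V₁ →ₗ[k] V₂) (f₂ : V₂ →ₗ[k] V₃)
    (h₁ : Function.Injective f₁) (h₁₂ : LinearMap.range f₁ = LinearMap.ker f₂)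
    (h₃ : Function.Surjective f₂) :
    finrank k V₂ = finrank k V₁ + finrank k V₃ := by
  have e2 := LinearMap.finrank_range_add_finrank_ker f₂
  have e1 := LinearMap.finrank_range_of_inj h₁
  have e4 : finrank k (LinearMap.range f₂) = finrank k V₃ := by
    rw [LinearMap.range_eq_top.2 h₃, finrank_top]
  rw [h₁₂] at e1
  omega

variable {k : Type} [Field k] {A : Type} [CommRing A] [Algebra k A]
variable {p : ℕ → A →ₗ[k] A}
variable {V : Type} [AddCommGroup V] [Module k V]
variable {M : Type} [AddCommGroup M] [Module k M] [Module A M]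
variable {N : Type} [AddCommGroup N] [Module k N] [Module A N]
variable {F : Type} [AddCommGroup F] [Module k F] [Module A F]
variable {W : Type} [AddCommGroup W] [Module k W] [Module A W]

theorem Ds_comp_self {f : ℕ → N →ₗ[k] N} (hf : IsGr p f) {n : ℕ} {φ : N →ₗ[k] V}
    (hφ : φ ∈ Ds V f 0 n) : φ.comp (f n) = φ := by
  refine hf.ext_hom fun i x => ?_
  rw [LinearMap.comp_apply, hf.orth]
  split_ifs with h
  · rfl
  · rw [map_zero]
    exact (hφ i x (by omega)).symm

theorem comp_mem_Ds {f : ℕ → N →ₗ[k] N} (hf : IsGr p f) (n : ℕ) (φ : N →ₗ[k] V) :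
    φ.comp (f n) ∈ Ds V f 0 n := by
  intro j y h
  rw [LinearMap.comp_apply, hf.orth' (by omega), map_zero]

theorem Ds_add [Module.Finite k F] [Module.Finite k M] [Module.Finite k W] [Module.Finite k V]
    {e : ℕ → M →ₗ[k] M} {eF : ℕ → F →ₗ[k] F} {eW : ℕ → W →ₗ[k] W}
    (he : IsGr p e) (hF : IsGr p eF) (hW : IsGr p eW)
    (g : F →ₗ[k] M) (hg : Function.Surjective g) (j : W →ₗ[k] F) (hj : Function.Injective j)
    (hjg : ∀ x, g x = 0 ↔ ∃ w, j w = x)
    (hge : ∀ i x, g (eF i x) = e i (g x)) (hje : ∀ i w, j (eW i w) = eF i (j w)) (n : ℕ) :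
    finrank k (Ds V eF 0 n) = finrank k (Ds V e 0 n) + finrank k (Ds V eW 0 n) := by
  let f₁ : Ds V e 0 n →ₗ[k] Ds V eF 0 n :=
    { toFun := fun φ => ⟨φ.1.comp g, fun i x h => by
        rw [LinearMap.comp_apply, hge]
        exact φ.2 i _ h⟩
      map_add' := fun b c => rfl
      map_smul' := fun r b => rfl }
  let f₂ : Ds V eF 0 n →ₗ[k] Ds V eW 0 n :=
    { toFun := fun φ => ⟨φ.1.comp j, fun i x h => by
        rw [LinearMap.comp_apply, hje]
        exact φ.2 i _ h⟩
      map_add' := fun b c => rfl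
      map_smul' := fun r b => rfl }
  refine finrank3 f₁ f₂ ?_ ?_ ?_
  · intro b c hbc
    apply Subtype.ext
    refine LinearMap.ext fun x => ?_
    obtain ⟨x, rfl⟩ := hg x
    exact LinearMap.congr_fun (congrArg Subtype.val hbc) x
  · ext φ
    rw [LinearMap.mem_range, LinearMap.mem_ker]
    constructor
    · rintro ⟨c, rfl⟩
      apply Subtype.ext
      refine LinearMap.ext fun x => ?_
      show c.1 (g (j x)) = 0
      rw [(hjg (j x)).2 ⟨x, rfl⟩, map_zero]
    · intro hφ
      have h1 : ∀ x, g x = 0 → φ.1 x = 0 := by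
        intro x hx
        obtain ⟨w, rfl⟩ := (hjg x).1 hx
        exact LinearMap.congr_fun (congrArg Subtype.val hφ) w
      obtain ⟨t, ht⟩ := g.exists_rightInverse_of_surjective (LinearMap.range_eq_top.2 hg)
      have ht' : ∀ x, g (t x) = x := fun x => LinearMap.congr_fun ht x
      have h2 : ∀ x y, g x = g y → φ.1 x = φ.1 y := by
        intro x y hxy
        have := h1 (x - y) (by rw [map_sub, hxy, sub_self])
        rwa [map_sub, sub_eq_zero] at this
      refine ⟨⟨φ.1.comp t, fun i x h => ?_⟩, ?_⟩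
      · rw [LinearMap.comp_apply, h2 _ (eF i (t x)) (by rw [ht', hge, ht'])]
        exact φ.2 i _ h
      · apply Subtype.ext
        refine LinearMap.ext fun x => ?_
        exact h2 _ _ (ht' _)
  · intro φ
    obtain ⟨l, hl⟩ := j.exists_leftInverse_of_injective (LinearMap.ker_eq_bot.2 hj)
    have hl' : ∀ x, l (j x) = x := fun x => LinearMap.congr_fun hl x
    refine ⟨⟨(φ.1.comp l).comp (eF n), comp_mem_Ds hF n _⟩, ?_⟩
    apply Subtype.ext
    refine LinearMap.ext fun x => ?_
    show φ.1 (l (eF n (j x))) = φ.1 x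
    rw [← hje, hl']
    exact LinearMap.congr_fun (Ds_comp_self hW φ.2) x

/-- total dimension -/
theorem sum_Ds {f : ℕ → N →ₗ[k] N} (hf : IsGr p f) [Module.Finite k N] [Module.Finite k V]
    {B : ℕ} (hB : ∀ i, B ≤ i → f i = 0) (hBs : ∀ x, ∑ i ∈ range B, f i x = x) :
    ∑ n ∈ range B, finrank k (Ds V f 0 n) = finrank k N * finrank k V := by
  let Φ : (N →ₗ[k] V) →ₗ[k] (∀ n : Fin B, Ds V f 0 n) :=
    { toFun := fun φ n => ⟨φ.comp (f n), comp_mem_Ds hf n φ⟩
      map_add' := fun b c => rfl
      map_smul' := fun r b => rfl }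
  have hΦ : Function.Bijective Φ := by
    constructor
    · intro φ ψ h
      refine LinearMap.ext fun x => ?_
      rw [← hBs x, map_sum, map_sum]
      refine sum_congr rfl fun i hi => ?_
      exact LinearMap.congr_fun (congrArg Subtype.val (congrFun h ⟨i, mem_range.1 hi⟩)) x
    · intro φ
      refine ⟨∑ n, (φ n).1, ?_⟩
      funext n
      apply Subtype.ext
      refine LinearMap.ext fun x => ?_
      show (∑ l, (φ l).1) (f n x) = (φ n).1 x
      rw [LinearMap.sum_apply, sum_eq_single n]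
      · exact LinearMap.congr_fun (Ds_comp_self hf (φ n).2) x
      · intro l _ hl
        exact (φ l).2 _ _ (fun h => hl (Fin.ext (by omega)))
      · intro h
        exact absurd (mem_univ n) h
  have e1 := (LinearEquiv.ofBijective Φ hΦ).finrank_eq
  rw [finrank_pi_fintype, Module.finrank_linearMap] at e1
  rw [e1, Finset.sum_range]

/-- symmetric plus antisymmetric -/
theorem finrank_BAn_split [Module.Finite k M] [Module.Finite k V]
    {e : ℕ → M →ₗ[k] M} (h2 : (2 : k) ≠ 0) (n : ℕ) :
    finrank k (BAn A V e e n) =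
      finrank k (BS A V (1 : k) e n) + finrank k (BS A V (-1 : k) e n) := by
  let f₁ : BS A V (1 : k) e n →ₗ[k] BAn A V e e n :=
    { toFun := fun b => ⟨b.1, b.2.1⟩
      map_add' := fun b c => rfl
      map_smul' := fun r b => rfl }
  have m2 : ∀ b : BAn A V e e n, b.1 - b.1.flip ∈ BS A V (-1 : k) e n := fun b =>
    ⟨sub_mem_BAn b.2 (flip_mem b.2), fun x y => by
      rw [LinearMap.sub_apply, LinearMap.sub_apply, LinearMap.sub_apply, LinearMap.sub_apply,
        LinearMap.flip_apply, LinearMap.flip_apply]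
      module⟩
  let f₂ : BAn A V e e n →ₗ[k] BS A V (-1 : k) e n :=
    { toFun := fun b => ⟨b.1 - b.1.flip, m2 b⟩
      map_add' := fun b c => by
        apply Subtype.ext
        refine LinearMap.ext fun x => LinearMap.ext fun y => ?_
        show b.1 x y + c.1 x y - (b.1 y x + c.1 y x) = b.1 x y - b.1 y x + (c.1 x y - c.1 y x)
        module
      map_smul' := fun r b => by
        apply Subtype.ext
        refine LinearMap.ext fun x => LinearMap.ext fun y => ?_
        show r • b.1 x y - r • b.1 y x = r • (b.1 x y - b.1 y x)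
        module }
  refine finrank3 (V₁ := BS A V (1 : k) e n) (V₂ := BAn A V e e n)
    (V₃ := BS A V (-1 : k) e n) f₁ f₂ ?_ ?_ ?_
  · intro b c hbc
    exact Subtype.ext (congrArg (fun z : BAn A V e e n => z.1) hbc)
  · ext b
    rw [LinearMap.mem_range, LinearMap.mem_ker]
    constructor
    · rintro ⟨c, rfl⟩
      apply Subtype.ext
      refine LinearMap.ext fun x => LinearMap.ext fun y => ?_
      show c.1 x y - c.1 y x = 0
      rw [c.2.2 x y, one_smul, sub_self]
    · intro hb
      refine ⟨⟨b.1, b.2, fun x y => ?_⟩, Subtype.ext rfl⟩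
      have h3 : b.1 x y - b.1 y x = 0 :=
        LinearMap.congr_fun (LinearMap.congr_fun (congrArg Subtype.val hb) x) y
      rw [one_smul]
      exact (sub_eq_zero.1 h3).symm
  · intro b
    refine ⟨⟨(2 : k)⁻¹ • b.1, smul_mem_BAn _ b.2.1⟩, ?_⟩
    apply Subtype.ext
    refine LinearMap.ext fun x => LinearMap.ext fun y => ?_
    show (2 : k)⁻¹ • b.1 x y - (2 : k)⁻¹ • b.1 y x = b.1 x y
    rw [b.2.2 x y]
    have h3 : (2 : k) * (2 : k)⁻¹ = 1 := mul_inv_cancel₀ h2
    linear_combination (norm := module) h3 • (b.1 x y)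

theorem BAn_eq_bot_of_lt {e : ℕ → M →ₗ[k] M} {f : ℕ → N →ₗ[k] N} (he : IsGr p e)
    (hf : IsGr p f) {a b n : ℕ} (ha : ∀ i < a, e i = 0) (hb : ∀ i < b, f i = 0)
    (hn : n < a + b) : BAn A V e f n = ⊥ := by
  rw [eq_bot_iff]
  intro β hβ
  rw [Submodule.mem_bot]
  refine form_ext he hf fun i j x y => ?_
  rw [LinearMap.zero_apply, LinearMap.zero_apply]
  by_cases h : i + j = n
  · by_cases hi : i < a
    · rw [ha i hi, LinearMap.zero_apply, map_zero, LinearMap.zero_apply]
    · rw [hb j (by omega), LinearMap.zero_apply, map_zero]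
  · exact hβ.2 i j x y h

theorem BAn_eq_bot_of_gt {e : ℕ → M →ₗ[k] M} {f : ℕ → N →ₗ[k] N} (he : IsGr p e)
    (hf : IsGr p f) {a b n : ℕ} (ha : ∀ i, a < i → e i = 0) (hb : ∀ i, b < i → f i = 0)
    (hn : a + b < n) : BAn A V e f n = ⊥ := by
  rw [eq_bot_iff]
  intro β hβ
  rw [Submodule.mem_bot]
  refine form_ext he hf fun i j x y => ?_
  rw [LinearMap.zero_apply, LinearMap.zero_apply]
  by_cases h : i + j = n
  · by_cases hi : a < i
    · rw [ha i hi, LinearMap.zero_apply, map_zero, LinearMap.zero_apply]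
    · rw [hb j (by omega), LinearMap.zero_apply, map_zero]
  · exact hβ.2 i j x y h

theorem BS_eq_bot {e : ℕ → M →ₗ[k] M} {s : k} {n : ℕ} (h : BAn A V e e n = ⊥) :
    BS A V s e n = ⊥ := by
  rw [eq_bot_iff]
  intro β hβ
  rw [← h]
  exact hβ.1

theorem Ds_eq_bot {f : ℕ → N →ₗ[k] N} (hf : IsGr p f) {n : ℕ} (h : f n = 0) :
    Ds V f 0 n = ⊥ := by
  rw [eq_bot_iff]
  intro φ hφ
  rw [Submodule.mem_bot, ← Ds_comp_self hf hφ, h, LinearMap.comp_zero]

/-- homogeneous bases -/
theorem exists_hom_basis {e : ℕ → M →ₗ[k] M} (he : IsGr p e) [Module.Finite k M] :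
    ∃ (m : ℕ) (v : Fin m → M) (d : Fin m → ℕ), (∀ a, e (d a) (v a) = v a) ∧
      LinearIndependent k v ∧ Submodule.span k (Set.range v) = ⊤ := by
  let S : Set M := {x | ∃ i, e i x = x}
  have hS : Submodule.span k S = ⊤ := by
    rw [eq_top_iff]
    intro x _
    obtain ⟨B, _, hB⟩ := he.exists_bdd
    rw [← hB x]
    exact Submodule.sum_mem _ fun i _ => Submodule.subset_span ⟨i, he.idem i x⟩
  obtain ⟨b, hbS, hbs, hbl⟩ := exists_linearIndependent k S
  have hfin : b.Finite := hbl.setFinite
  have := hfin.to_subtype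
  obtain ⟨m, ⟨φ⟩⟩ := Finite.exists_equiv_fin b
  have h1 : ∀ a : Fin m, ∃ i, e i (φ.symm a).1 = (φ.symm a).1 := fun a => hbS (φ.symm a).2
  choose d hd using h1
  refine ⟨m, fun a => (φ.symm a).1, d, hd, hbl.comp _ φ.symm.injective, ?_⟩
  have h2 : Set.range (fun a => (φ.symm a).1) = b := by
    ext x
    constructor
    · rintro ⟨a, rfl⟩
      exact (φ.symm a).2
    · intro hx
      exact ⟨φ ⟨x, hx⟩, by simp⟩
  rw [h2, hbs, hS]

theorem IsGr.smul_hom {e : ℕ → M →ₗ[k] M} [IsScalarTower k A M] (hp : IsGr p p) (he : IsGr p e)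
    (i j : ℕ) (c : A) (x : M) :
    e i (c • e j x) = if j ≤ i then p (i - j) c • e j x else 0 := by
  let L₁ : A →ₗ[k] M := (e i).comp ((LinearMap.toSpanSingleton A M (e j x)).restrictScalars k)
  let L₂ : A →ₗ[k] M := if j ≤ i then
    ((LinearMap.toSpanSingleton A M (e j x)).restrictScalars k).comp (p (i - j)) else 0
  have h : L₁ = L₂ := by
    refine hp.ext_hom fun l c => ?_
    show e i (p l c • e j x) = _
    rw [he.smul_comp]
    by_cases hji : j ≤ i
    · have h3 : L₂ (p l c) = p (i - j) (p l c) • e j x := by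
        simp [L₂, hji]
      rw [h3, hp.orth]
      split_ifs with h4 h5 h5
      · rw [← h5]
      · omega
      · omega
      · rw [zero_smul]
    · have h3 : L₂ (p l c) = 0 := by
        simp [L₂, hji]
      rw [h3, if_neg (by omega)]
  have h' := LinearMap.congr_fun h c
  have h1 : L₁ c = e i (c • e j x) := rfl
  rw [h1] at h'
  rw [h']
  split_ifs with hji
  · simp [L₂, hji]
  · simp [L₂, hji]

/-- The first syzygy of a graded module: all data used in the induction. -/
theorem exists_cover {e : ℕ → M →ₗ[k] M} [IsScalarTower k A M] (hp : IsGr p p) (he : IsGr p e)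
    [Module.Finite k M] [Module.Finite k A]
    (hA0 : ∀ x : A, ∃ c : k, algebraMap k A c = p 0 x) {a : ℕ} (ha : ∀ i < a, e i = 0) :
    ∃ (m : ℕ) (d : Fin m → ℕ) (g : (Fin m → A) →ₗ[A] M),
      Function.Surjective g ∧ (∀ i x, g (eF p d i x) = e i (g x)) ∧
      ∃ eW : ℕ → (LinearMap.ker g) →ₗ[k] (LinearMap.ker g),
        IsGr p eW ∧ (∀ i w, ((eW i w : LinearMap.ker g) : Fin m → A) = eF p d i w) ∧
        ∀ i < a + 1, eW i = 0 := by
  obtain ⟨m, v, d, hv, hli, hsp⟩ := exists_hom_basis he
  let g : (Fin m → A) →ₗ[A] M := Fintype.linearCombination A v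
  have g_apply : ∀ x, g x = ∑ b, x b • v b := fun x => Fintype.linearCombination_apply A v x
  have hg : Function.Surjective g := by
    rw [← LinearMap.range_eq_top]
    rw [Fintype.range_linearCombination]
    rw [eq_top_iff]
    intro x _
    have h1 : x ∈ Submodule.span k (Set.range v) := by rw [hsp]; trivial
    exact Submodule.span_subset_span k A _ h1
  have hge : ∀ i x, g (eF p d i x) = e i (g x) := by
    intro i x
    rw [g_apply, g_apply, map_sum]
    refine sum_congr rfl fun b _ => ?_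
    rw [eF_apply]
    conv_rhs => rw [← hv b, IsGr.smul_hom hp he]
    split_ifs with h
    · rw [hv b]
    · rw [zero_smul]
  have hmem : ∀ i (w : LinearMap.ker g), eF p d i w.1 ∈ LinearMap.ker g := by
    intro i w
    rw [LinearMap.mem_ker, hge, LinearMap.mem_ker.1 w.2, map_zero]
  let eW : ℕ → (LinearMap.ker g) →ₗ[k] (LinearMap.ker g) := fun i =>
    { toFun := fun w => ⟨eF p d i w.1, hmem i w⟩
      map_add' := fun w w' => Subtype.ext (map_add (eF p d i) w.1 w'.1)
      map_smul' := fun c w => Subtype.ext (map_smul (eF p d i) c w.1) }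
  have eW_apply : ∀ i w, ((eW i w : LinearMap.ker g) : Fin m → A) = eF p d i w := fun _ _ => rfl
  have hF := isGr_eF hp d
  have hW : IsGr p eW := by
    refine ⟨fun i j x => ?_, ?_, fun i j c x => ?_⟩
    · apply Subtype.ext
      rw [eW_apply, eW_apply, hF.orth]
      split_ifs <;> rfl
    · obtain ⟨B, hB⟩ := hF.bdd
      refine ⟨B, fun x => ?_⟩
      apply Subtype.ext
      rw [Submodule.coe_sum]
      exact hB x.1
    · apply Subtype.ext
      exact hF.smul i j c x.1
  have hda : ∀ b, a ≤ d b := by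
    intro b
    by_contra h
    have h1 := hv b
    rw [ha (d b) (by omega), LinearMap.zero_apply] at h1
    exact hli.ne_zero b h1.symm
  refine ⟨m, d, g, hg, hge, eW, hW, eW_apply, fun i hi => ?_⟩
  refine LinearMap.ext fun w => Subtype.ext ?_
  rw [eW_apply]
  show eF p d i w.1 = 0
  by_cases hia : i < a
  · funext b
    rw [eF_apply, if_neg (by have := hda b; omega)]
    rfl
  · have hia : i = a := by omega
    subst hia
    have h1 : ∀ b, ∃ c : k, eF p d i w.1 b = algebraMap k A c ∧ (d b ≠ i → c = 0) := by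
      intro b
      by_cases hb : d b = i
      · obtain ⟨c, hc⟩ := hA0 (w.1 b)
        refine ⟨c, ?_, fun h => absurd hb h⟩
        rw [eF_apply, if_pos (by omega), hb, Nat.sub_self, hc]
      · refine ⟨0, ?_, fun _ => rfl⟩
        rw [eF_apply, if_neg (by have := hda b; omega), map_zero]
    choose c hc hc0 using h1
    have h2 : g (eF p d i w.1) = 0 := by
      rw [hge, LinearMap.mem_ker.1 w.2, map_zero]
    rw [g_apply] at h2
    have h3 : ∑ b, c b • v b = 0 := by
      rw [← h2]
      refine sum_congr rfl fun b _ => ?_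
      rw [hc, algebraMap_smul]
    have h4 := Fintype.linearIndependent_iff.1 hli c h3
    funext b
    rw [hc, h4, map_zero]
    rfl

end Pool.Agent.Helper89.TC
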