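import Pool.Agent.Helper89.TC.ExtPart

/-!
Generating functions and the recursion along syzygies.
-/

open Finset Module CategoryTheory CategoryTheory.Abelian

namespace Pool.Agent.Helper89.TC

variable {k : Type} [Field k] {A : Type} [CommRing A] [Algebra k A]
variable {p : ℕ → A →ₗ[k] A}
variable (V : Type) [AddCommGroup V] [Module k V]
variable {M : Type} [AddCommGroup M] [Module k M] [Module A M] [IsScalarTower k A M]
variable {N : Type} [AddCommGroup N] [Module k N] [Module A N] [IsScalarTower k A N]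

noncomputable def hS (f : ℕ → N →ₗ[k] N) : PowerSeries ℤ :=
  PowerSeries.mk fun n => (finrank k (Ds V f 0 n) : ℤ)

noncomputable def cS (A : Type) [CommRing A] [Algebra k A] [Module A M] [Module A N]
    (e : ℕ → M →ₗ[k] M) (f : ℕ → N →ₗ[k] N) : PowerSeries ℤ :=
  PowerSeries.mk fun n => (finrank k (BAn A V e f n) : ℤ)

noncomputable def tS (A : Type) [CommRing A] [Algebra k A] [Module A M]
    (e : ℕ → M →ₗ[k] M) : PowerSeries ℤ :=
  PowerSeries.mk fun n => (finrank k (BS A V (1 : k) e n) : ℤ) - finrank k (BS A V (-1 : k) e n)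

noncomputable def bS {m : ℕ} (d : Fin m → ℕ) : PowerSeries ℤ := ∑ a, PowerSeries.X ^ (d a)

/-- `z ↦ z ^ 2` -/
noncomputable def ex : PowerSeries ℤ →ₐ[ℤ] PowerSeries ℤ := PowerSeries.expand 2 two_ne_zero

variable [Module.Finite k A] [Module.Finite k V]

theorem coeff_bS_mul {m : ℕ} (d : Fin m → ℕ) (φ : PowerSeries ℤ) (n : ℕ) :
    PowerSeries.coeff n (bS d * φ) =
      ∑ a, if d a ≤ n then PowerSeries.coeff (n - d a) φ else 0 := by
  rw [bS, sum_mul, map_sum]
  exact sum_congr rfl fun a _ => PowerSeries.coeff_X_pow_mul' _ _ _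

theorem cS_free {m : ℕ} {d : Fin m → ℕ} [Module.Finite k N] {f : ℕ → N →ₗ[k] N}
    (hp : IsGr p p) (h1 : p 0 1 = 1) (hf : IsGr p f) :
    cS V A (eF p d) f = bS d * hS V f := by
  ext n
  rw [coeff_bS_mul, cS, PowerSeries.coeff_mk, finrank_BAn_free hp h1 hf, Nat.cast_sum]
  refine sum_congr rfl fun a _ => ?_
  rw [Ds_shift hf, hS]
  split_ifs
  · rw [PowerSeries.coeff_mk]
  · rfl

theorem hS_free {m : ℕ} {d : Fin m → ℕ} (hp : IsGr p p) (h1 : p 0 1 = 1) :
    hS V (eF p d) = bS d * hS V p := by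
  rw [← cS_free V hp h1 hp]
  ext n
  rw [hS, cS, PowerSeries.coeff_mk, PowerSeries.coeff_mk,
    finrank_BAn_ring hp h1 (isGr_eF hp d)]

theorem tS_free {m : ℕ} {d : Fin m → ℕ} (hp : IsGr p p) (h1 : p 0 1 = 1) (h2 : (2 : k) ≠ 0) :
    tS V A (eF p d) = ex (bS d) * hS V p := by
  have hb : ex (bS d) = bS fun a => 2 * d a := by
    rw [bS, bS, map_sum]
    refine sum_congr rfl fun a _ => ?_
    rw [map_pow, ex, PowerSeries.expand_X, pow_mul]
  rw [hb]
  ext n
  rw [coeff_bS_mul, tS, PowerSeries.coeff_mk, finrank_BS_free hp h1 h2, Nat.cast_add,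
    add_sub_cancel_left, Nat.cast_sum]
  refine sum_congr rfl fun a _ => ?_
  rw [Ds_shift hp, hS]
  split_ifs
  · rw [PowerSeries.coeff_mk]
  · rfl

/-- the defect of the swap trace formula -/
noncomputable def Dt (p : ℕ → A →ₗ[k] A) (e : ℕ → M →ₗ[k] M) : PowerSeries ℤ :=
  ex (hS V p) * tS V A e - hS V p * ex (hS V e)

/-- the defect of the dimension formula -/
noncomputable def Dc (p : ℕ → A →ₗ[k] A) (e : ℕ → M →ₗ[k] M) : PowerSeries ℤ :=
  hS V p * cS V A e e - hS V e * hS V e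

omit [Module.Finite k A] [Module.Finite k V] in
theorem ex_dvd {a : ℕ} {φ : PowerSeries ℤ} (h : PowerSeries.X ^ a ∣ φ) :
    PowerSeries.X ^ (2 * a) ∣ ex φ := by
  obtain ⟨ψ, rfl⟩ := h
  rw [map_mul, map_pow, ex, PowerSeries.expand_X, ← pow_mul]
  exact Dvd.intro _ rfl

omit [Module.Finite k A] [Module.Finite k V] [IsScalarTower k A M] in
theorem base_dvd {e : ℕ → M →ₗ[k] M} (he : IsGr p e) {a : ℕ} (ha : ∀ i < a, e i = 0) :
    PowerSeries.X ^ (2 * a) ∣ Dt V p e ∧ PowerSeries.X ^ (2 * a) ∣ Dc V p e := by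
  have h1 : PowerSeries.X ^ a ∣ hS V e := by
    rw [PowerSeries.X_pow_dvd_iff]
    intro n hn
    rw [hS, PowerSeries.coeff_mk, Ds_eq_bot he (ha n hn), finrank_bot, Nat.cast_zero]
  have h2 : PowerSeries.X ^ (2 * a) ∣ cS V A e e := by
    rw [PowerSeries.X_pow_dvd_iff]
    intro n hn
    rw [cS, PowerSeries.coeff_mk, BAn_eq_bot_of_lt he he ha ha (by omega), finrank_bot,
      Nat.cast_zero]
  have h3 : PowerSeries.X ^ (2 * a) ∣ tS V A e := by
    rw [PowerSeries.X_pow_dvd_iff]
    intro n hn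
    have h4 : BAn A V e e n = ⊥ := BAn_eq_bot_of_lt he he ha ha (by omega)
    rw [tS, PowerSeries.coeff_mk, BS_eq_bot h4, BS_eq_bot h4, finrank_bot, Nat.cast_zero,
      sub_zero]
  have h5 : PowerSeries.X ^ (2 * a) ∣ hS V e * hS V e := by
    rw [two_mul, pow_add]
    exact mul_dvd_mul h1 h1
  refine ⟨dvd_sub (h3.mul_left _) ((ex_dvd h1).mul_left _), dvd_sub (h2.mul_left _) h5⟩

/-- vanishing of `Ext^i (M, D M)` for `1 ≤ i ≤ r` -/
def Van (k : Type) [Field k] (A : Type) [CommRing A] [Algebra k A]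
    (V : Type) [AddCommGroup V] [Module k V]
    (M : Type) [AddCommGroup M] [Module k M] [Module A M] [IsScalarTower k A M]
    [HasExt.{0} (ModuleCat.{0} A)] (r : ℕ) : Prop :=
  ∀ i, 1 ≤ i → i ≤ r → Subsingleton (Ext (ModuleCat.of A M) (ModuleCat.of A (Dl k V M)) i)

omit [Module.Finite k V] [IsScalarTower k A M] in
theorem finite_ker {m : ℕ} (g : (Fin m → A) →ₗ[A] M) : Module.Finite k (LinearMap.ker g) :=
  Module.Finite.of_injective ((LinearMap.ker g).subtype.restrictScalars k)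
    (LinearMap.ker g).injective_subtype

variable [HasExt.{0} (ModuleCat.{0} A)]

theorem step {e : ℕ → M →ₗ[k] M} [Module.Finite k M] (hp : IsGr p p) (h1 : p 0 1 = 1)
    (he : IsGr p e) (h2 : (2 : k) ≠ 0) {m : ℕ} {d : Fin m → ℕ}
    (g : (Fin m → A) →ₗ[A] M) (hg : Function.Surjective g)
    (hge : ∀ i x, g (eF p d i x) = e i (g x))
    (eW : ℕ → (LinearMap.ker g) →ₗ[k] (LinearMap.ker g)) (hW : IsGr p eW)
    (heW : ∀ i w, ((eW i w : LinearMap.ker g) : Fin m → A) = eF p d i w)
    (hV : Van k A V M 2) :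
    Dt V p e = - Dt V p eW ∧ Dc V p e = Dc V p eW := by
  have hF := isGr_eF hp d
  have finW : Module.Finite k (LinearMap.ker g) := finite_ker g
  have E1 := hV 1 le_rfl (by norm_num)
  have E2 := ext_shift_right (k := k) (V := V) (n := 0) (X := ModuleCat.of A M) g hg
    (hV 2 (by norm_num) le_rfl)
  have hX1 := fun γ hγ => form_lift (N := M) (V := V) g hg E1 γ hγ
  have hX2 := fun γ hγ => form_lift (N := LinearMap.ker g) (V := V) g hg E2 γ hγ
  have hX3 : ∀ γ : (Fin m → A) →ₗ[k] (LinearMap.ker g) →ₗ[k] V, Bal A γ →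
      ∃ γ' : (Fin m → A) →ₗ[k] (Fin m → A) →ₗ[k] V, Bal A γ' ∧
        ∀ x (y : LinearMap.ker g), γ' x y.1 = γ x y := by
    intro γ hγ
    obtain ⟨l, hl⟩ := ((LinearMap.ker g).subtype.restrictScalars k).exists_leftInverse_of_injective
      (LinearMap.ker_eq_bot.2 (LinearMap.ker g).injective_subtype)
    have hl' : ∀ x : LinearMap.ker g, l x.1 = x := fun x => LinearMap.congr_fun hl x
    refine ⟨mkForm fun a => (γ (Pi.single a 1)).comp l, mkForm_bal _, fun x y => ?_⟩
    rw [mkForm_apply]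
    have h3 := LinearMap.congr_fun (LinearMap.congr_fun (form_eq_mkForm hγ) x) y
    rw [h3, mkForm_apply]
    refine sum_congr rfl fun a _ => ?_
    show γ (Pi.single a 1) (l (x a • y.1)) = γ (Pi.single a 1) (x a • y)
    congr 1
    exact hl' (x a • y)
  have hjg : ∀ x, g.restrictScalars k x = 0 ↔
      ∃ w, (LinearMap.ker g).subtype.restrictScalars k w = x := by
    intro x
    constructor
    · intro hx
      exact ⟨⟨x, hx⟩, rfl⟩
    · rintro ⟨w, rfl⟩
      exact w.2
  have ft := fun (s : k) (hs : s * s = 1) (n : ℕ) =>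
    four_term (V := V) hp he hF hW (g.restrictScalars k) hg
      ((LinearMap.ker g).subtype.restrictScalars k)
      (fun a x => map_smul g a x) (fun a x => rfl) hjg hge heW hX1 hX2 hX3 h2 s hs n
  have ft1 := ft 1 (one_mul 1)
  have ft2 := ft (-1) (by norm_num)
  rw [neg_neg] at ft2
  have hadd := fun n => Ds_add (V := V) he hF hW (g.restrictScalars k) hg
    ((LinearMap.ker g).subtype.restrictScalars k) (LinearMap.ker g).injective_subtype
    hjg hge heW n
  have t_eq : tS V A e = tS V A (eF p d) - tS V A eW := by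
    ext n
    have a1 := ft1 n
    have a2 := ft2 n
    rw [map_sub, tS, tS, tS, PowerSeries.coeff_mk, PowerSeries.coeff_mk, PowerSeries.coeff_mk]
    omega
  have c_eq : cS V A e e + 2 * cS V A (eF p d) eW =
      cS V A (eF p d) (eF p d) + cS V A eW eW := by
    ext n
    have a1 := ft1 n
    have a2 := ft2 n
    have a3 := finrank_BAn_split (A := A) (V := V) (e := e) h2 n
    have a4 := finrank_BAn_split (A := A) (V := V) (e := eF p d) h2 n
    have a5 := finrank_BAn_split (A := A) (V := V) (e := eW) h2 n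
    rw [two_mul, map_add, map_add, map_add, cS, cS, cS, cS, PowerSeries.coeff_mk,
      PowerSeries.coeff_mk, PowerSeries.coeff_mk, PowerSeries.coeff_mk]
    omega
  have h_eq : hS V (eF p d) = hS V e + hS V eW := by
    ext n
    have a1 := hadd n
    rw [map_add, hS, hS, hS, PowerSeries.coeff_mk, PowerSeries.coeff_mk, PowerSeries.coeff_mk]
    omega
  rw [cS_free V hp h1 hW, cS_free V hp h1 hF] at c_eq
  rw [hS_free V hp h1] at c_eq h_eq
  rw [tS_free V hp h1 h2] at t_eq
  have hM : hS V e = bS d * hS V p - hS V eW := by rw [h_eq]; ring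
  constructor
  · rw [Dt, Dt, t_eq, hM, map_sub, map_mul]
    ring
  · rw [Dc, Dc, hM]
    linear_combination (hS V p) * c_eq

omit [Module.Finite k A] [Module.Finite k V] in
theorem van_ker {m r : ℕ} (g : (Fin m → A) →ₗ[A] M) (hg : Function.Surjective g)
    (hV : Van k A V M (r + 2)) : Van k A V (LinearMap.ker g) r := by
  intro i hi hir
  obtain ⟨n, rfl⟩ : ∃ n, i = n + 1 := ⟨i - 1, by omega⟩
  refine ext_shift_left g hg ?_
  exact ext_shift_right (k := k) (V := V) (n := n + 1) g hg (hV (n + 3) (by omega) (by omega))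

theorem recursion (hp : IsGr p p) (h1 : p 0 1 = 1) (h2 : (2 : k) ≠ 0)
    (hA0 : ∀ x : A, ∃ c : k, algebraMap k A c = p 0 x) (q : ℕ) :
    ∀ (M : Type) [AddCommGroup M] [Module k M] [Module A M] [IsScalarTower k A M]
      [Module.Finite k M] (e : ℕ → M →ₗ[k] M), IsGr p e → ∀ a : ℕ, (∀ i < a, e i = 0) →
      Van k A V M (2 * q) →
      PowerSeries.X ^ (2 * (a + q)) ∣ Dt V p e ∧ PowerSeries.X ^ (2 * (a + q)) ∣ Dc V p e := by
  induction q with
  | zero =>
    intro M _ _ _ _ _ e he a ha _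
    exact base_dvd V he ha
  | succ q ih =>
    intro M _ _ _ _ _ e he a ha hV
    obtain ⟨m, d, g, hg, hge, eW, hW, heW, ha'⟩ := exists_cover hp he hA0 ha
    have hV2 : Van k A V M 2 := fun i hi hi2 => hV i hi (by omega)
    have finW : Module.Finite k (LinearMap.ker g) := finite_ker g
    obtain ⟨s1, s2⟩ := step V hp h1 he h2 g hg hge eW hW heW hV2
    obtain ⟨r1, r2⟩ := ih (LinearMap.ker g) eW hW (a + 1) ha' (van_ker V g hg hV)
    have h3 : 2 * (a + (q + 1)) = 2 * (a + 1 + q) := by ring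
    rw [h3, s1, s2]
    exact ⟨(dvd_neg).2 r1, r2⟩

end Pool.Agent.Helper89.TC
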