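import Pool.Agent.Helper89.TC.Basic

/-!
The four term exact sequences for symmetric and antisymmetric balanced forms.
-/

open Finset Module

namespace Pool.Agent.Helper89.TC

theorem finrank4 {k : Type} [Field k] {V₁ V₂ V₃ V₄ : Type}
    [AddCommGroup V₁] [Module k V₁] [AddCommGroup V₂] [Module k V₂]
    [AddCommGroup V₃] [Module k V₃] [AddCommGroup V₄] [Module k V₄]
    [Module.Finite k V₁] [Module.Finite k V₂] [Module.Finite k V₃] [Module.Finite k V₄]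
    (f₁ : V₁ →ₗ[k] V₂) (f₂ : V₂ →ₗ[k] V₃) (f₃ : V₃ →ₗ[k] V₄)
    (h₁ : Function.Injective f₁) (h₁₂ : LinearMap.range f₁ = LinearMap.ker f₂)
    (h₂₃ : LinearMap.range f₂ = LinearMap.ker f₃) (h₃ : Function.Surjective f₃) :
    finrank k V₁ + finrank k V₃ = finrank k V₂ + finrank k V₄ := by
  have e2 := LinearMap.finrank_range_add_finrank_ker f₂
  have e3 := LinearMap.finrank_range_add_finrank_ker f₃
  have e1 := LinearMap.finrank_range_of_inj h₁
  have e4 : finrank k (LinearMap.range f₃) = finrank k V₄ := by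
    rw [LinearMap.range_eq_top.2 h₃, finrank_top]
  rw [h₁₂] at e1
  rw [h₂₃] at e2
  omega

variable {k : Type} [Field k] {A : Type} [CommRing A] [Algebra k A]
variable {p : ℕ → A →ₗ[k] A}
variable {V : Type} [AddCommGroup V] [Module k V]
variable {M : Type} [AddCommGroup M] [Module k M] [Module A M]
variable {N : Type} [AddCommGroup N] [Module k N] [Module A N]
variable {M' : Type} [AddCommGroup M'] [Module k M'] [Module A M']
variable {N' : Type} [AddCommGroup N'] [Module k N'] [Module A N']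
variable {F : Type} [AddCommGroup F] [Module k F] [Module A F]
variable {W : Type} [AddCommGroup W] [Module k W] [Module A W]

theorem sub_mem_BAn {e : ℕ → M →ₗ[k] M} {f : ℕ → N →ₗ[k] N} {n : ℕ}
    {b c : M →ₗ[k] N →ₗ[k] V} (hb : b ∈ BAn A V e f n) (hc : c ∈ BAn A V e f n) :
    b - c ∈ BAn A V e f n := Submodule.sub_mem _ hb hc

theorem smul_mem_BAn {e : ℕ → M →ₗ[k] M} {f : ℕ → N →ₗ[k] N} {n : ℕ} (s : k)
    {b : M →ₗ[k] N →ₗ[k] V} (hb : b ∈ BAn A V e f n) :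
    s • b ∈ BAn A V e f n := Submodule.smul_mem _ _ hb

/-- `b ↦ b|_{W × W} - s (b|_{W × W})^T` -/
def asym (s : k) (j : W →ₗ[k] F) :
    (F →ₗ[k] W →ₗ[k] V) →ₗ[k] (W →ₗ[k] W →ₗ[k] V) where
  toFun b := b.compl₁₂ j LinearMap.id - s • (b.compl₁₂ j LinearMap.id).flip
  map_add' b c := by
    ext x y
    simp only [LinearMap.sub_apply, LinearMap.compl₁₂_apply, LinearMap.add_apply,
      LinearMap.id_apply, LinearMap.smul_apply, LinearMap.flip_apply]
    module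
  map_smul' r b := by
    ext x y
    simp only [LinearMap.sub_apply, LinearMap.compl₁₂_apply, LinearMap.id_apply,
      LinearMap.smul_apply, LinearMap.flip_apply, RingHom.id_apply]
    module

theorem asym_apply (s : k) (j : W →ₗ[k] F) (b : F →ₗ[k] W →ₗ[k] V) (x y : W) :
    asym s j b x y = b (j x) y - s • b (j y) x := rfl

/-- pull back of bilinear forms, as a linear map -/
def pull (g : M' →ₗ[k] M) (h : N' →ₗ[k] N) :
    (M →ₗ[k] N →ₗ[k] V) →ₗ[k] (M' →ₗ[k] N' →ₗ[k] V) where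
  toFun b := b.compl₁₂ g h
  map_add' b c := by ext x y; simp
  map_smul' r b := by ext x y; simp

theorem pull_apply (g : M' →ₗ[k] M) (h : N' →ₗ[k] N) (b : M →ₗ[k] N →ₗ[k] V)
    (x : M') (y : N') : pull g h b x y = b (g x) (h y) := rfl

theorem graded_lift_left {e : ℕ → M →ₗ[k] M} {f : ℕ → N →ₗ[k] N} {e' : ℕ → M' →ₗ[k] M'}
    [IsScalarTower k A M] [IsScalarTower k A N]
    (hp : IsGr p p) (he : IsGr p e) (hf : IsGr p f) (he' : IsGr p e')
    (j : M' →ₗ[k] M) (hj : ∀ i x, j (e' i x) = e i (j x))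
    (hX : ∀ γ : M' →ₗ[k] N →ₗ[k] V, Bal A γ →
      ∃ γ' : M →ₗ[k] N →ₗ[k] V, Bal A γ' ∧ ∀ x y, γ' (j x) y = γ x y) (n : ℕ)
    (γ : M' →ₗ[k] N →ₗ[k] V) (hγ : γ ∈ BAn A V e' f n) :
    ∃ γ' ∈ BAn A V e f n, ∀ x y, γ' (j x) y = γ x y := by
  obtain ⟨δ, hδ, hδ'⟩ := hX γ hγ.1
  refine ⟨cmp e f n δ, cmp_mem hp he hf n hδ, fun x y => ?_⟩
  rw [cmp_apply]
  simp only [← hj, hδ']
  rw [← cmp_apply (e := e') (f := f) n γ x y, cmp_self he' hf n hγ]

theorem graded_lift_right {e : ℕ → M →ₗ[k] M} {f : ℕ → N →ₗ[k] N} {f' : ℕ → N' →ₗ[k] N'}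
    [IsScalarTower k A M] [IsScalarTower k A N]
    (hp : IsGr p p) (he : IsGr p e) (hf : IsGr p f) (hf' : IsGr p f')
    (j : N' →ₗ[k] N) (hj : ∀ i x, j (f' i x) = f i (j x))
    (hX : ∀ γ : M →ₗ[k] N' →ₗ[k] V, Bal A γ →
      ∃ γ' : M →ₗ[k] N →ₗ[k] V, Bal A γ' ∧ ∀ x y, γ' x (j y) = γ x y) (n : ℕ)
    (γ : M →ₗ[k] N' →ₗ[k] V) (hγ : γ ∈ BAn A V e f' n) :
    ∃ γ' ∈ BAn A V e f n, ∀ x y, γ' x (j y) = γ x y := by
  obtain ⟨δ, hδ, hδ'⟩ := hX γ hγ.1
  refine ⟨cmp e f n δ, cmp_mem hp he hf n hδ, fun x y => ?_⟩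
  rw [cmp_apply]
  simp only [← hj, hδ']
  rw [← cmp_apply (e := e) (f := f') n γ x y, cmp_self he hf' n hγ]

/-- A form on `F × F` which vanishes on `F × W` and on `W × F` comes from `M × M`. -/
theorem descend {e : ℕ → M →ₗ[k] M} {eF : ℕ → F →ₗ[k] F}
    (g : F →ₗ[k] M) (hg : Function.Surjective g)
    (hga : ∀ (a : A) x, g (a • x) = a • g x)
    (hge : ∀ i x, g (eF i x) = e i (g x)) (n : ℕ)
    (b : F →ₗ[k] F →ₗ[k] V) (hb : b ∈ BAn A V eF eF n)
    (h1 : ∀ x y, g y = 0 → b x y = 0) (h2 : ∀ x y, g x = 0 → b x y = 0) :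
    ∃ c ∈ BAn A V e e n, ∀ x y, c (g x) (g y) = b x y := by
  obtain ⟨t, ht⟩ := g.exists_rightInverse_of_surjective (LinearMap.range_eq_top.2 hg)
  have ht' : ∀ x, g (t x) = x := fun x => LinearMap.congr_fun ht x
  have key : ∀ x y x' y', g x = g x' → g y = g y' → b x y = b x' y' := by
    intro x y x' y' hx hy
    have a1 : b (x - x') y = 0 := h2 _ _ (by rw [map_sub, hx, sub_self])
    have a2 : b x' (y - y') = 0 := h1 _ _ (by rw [map_sub, hy, sub_self])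
    rw [map_sub, LinearMap.sub_apply, sub_eq_zero] at a1
    rw [map_sub, sub_eq_zero] at a2
    rw [a1, a2]
  refine ⟨b.compl₁₂ t t, ⟨fun a x y => ?_, fun i j x y hij => ?_⟩, fun x y => ?_⟩
  · simp only [LinearMap.compl₁₂_apply]
    have e1 : b (t (a • x)) (t y) = b (a • t x) (t y) :=
      key _ _ _ _ (by rw [ht', hga, ht']) rfl
    have e2 : b (t x) (t (a • y)) = b (t x) (a • t y) :=
      key _ _ _ _ rfl (by rw [ht', hga, ht'])
    rw [e1, e2, hb.1]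
  · simp only [LinearMap.compl₁₂_apply]
    rw [key _ _ (eF i (t x)) (eF j (t y)) (by rw [ht', hge, ht']) (by rw [ht', hge, ht'])]
    exact hb.2 i j _ _ hij
  · simp only [LinearMap.compl₁₂_apply]
    exact key _ _ _ _ (ht' _) (ht' _)

theorem asym_mem {eF : ℕ → F →ₗ[k] F} {eW : ℕ → W →ₗ[k] W}
    (j : W →ₗ[k] F) (hja : ∀ (a : A) x, j (a • x) = a • j x)
    (hje : ∀ i w, j (eW i w) = eF i (j w)) {s : k} (hs : s * s = 1) {n : ℕ}
    {b : F →ₗ[k] W →ₗ[k] V} (hb : b ∈ BAn A V eF eW n) : asym s j b ∈ BS A V (-s) eW n := by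
  have h1 : b.compl₁₂ j LinearMap.id ∈ BAn A V eW eW n :=
    compl_mem hb j LinearMap.id hja (fun a x => rfl) hje (fun _ _ => rfl)
  refine ⟨sub_mem_BAn h1 (smul_mem_BAn s (flip_mem h1)), fun x y => ?_⟩
  rw [asym_apply, asym_apply]
  linear_combination (norm := module) (-hs) • (b (j y) x)

/-- exactness in the third term -/
theorem solve {e : ℕ → M →ₗ[k] M} {eF : ℕ → F →ₗ[k] F} {eW : ℕ → W →ₗ[k] W}
    (g : F →ₗ[k] M) (hg : Function.Surjective g) (j : W →ₗ[k] F)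
    (hga : ∀ (a : A) x, g (a • x) = a • g x) (hja : ∀ (a : A) x, j (a • x) = a • j x)
    (hjg : ∀ x, g x = 0 ↔ ∃ w, j w = x)
    (hge : ∀ i x, g (eF i x) = e i (g x)) (hje : ∀ i w, j (eW i w) = eF i (j w))
    {n : ℕ}
    (hX1 : ∀ γ : W →ₗ[k] M →ₗ[k] V, γ ∈ BAn A V eW e n →
      ∃ γ' : F →ₗ[k] M →ₗ[k] V, γ' ∈ BAn A V eF e n ∧ ∀ x y, γ' (j x) y = γ x y)
    (hX3 : ∀ γ : F →ₗ[k] W →ₗ[k] V, γ ∈ BAn A V eF eW n →
      ∃ γ' : F →ₗ[k] F →ₗ[k] V, γ' ∈ BAn A V eF eF n ∧ ∀ x y, γ' x (j y) = γ x y)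
    (h2 : (2 : k) ≠ 0) (s : k) (hs : s * s = 1)
    (γ : F →ₗ[k] W →ₗ[k] V) (hγ : γ ∈ BAn A V eF eW n)
    (hγ' : ∀ x y, γ (j x) y = s • γ (j y) x) :
    ∃ u : F →ₗ[k] F →ₗ[k] V, u ∈ BS A V s eF n ∧ ∀ x y, u x (j y) = γ x y := by
  obtain ⟨c, hc, hc'⟩ := hX3 γ hγ
  -- `d = c - s c^T`
  obtain ⟨d, hdef⟩ : ∃ d : F →ₗ[k] F →ₗ[k] V, d = c - s • c.flip := ⟨_, rfl⟩
  have hd : d ∈ BAn A V eF eF n := hdef ▸ sub_mem_BAn hc (smul_mem_BAn s (flip_mem hc))
  have d_apply : ∀ x y, d x y = c x y - s • c y x := fun x y => by rw [hdef]; rfl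
  have hdT : ∀ x y, d y x = -s • d x y := by
    intro x y
    rw [d_apply, d_apply]
    linear_combination (norm := module) (-hs) • (c y x)
  have hdW : ∀ x y, d (j x) (j y) = 0 := by
    intro x y
    rw [d_apply, hc', hc', hγ' x y, sub_self]
  -- the form `W × M` induced by `d`
  obtain ⟨t, ht⟩ := g.exists_rightInverse_of_surjective (LinearMap.range_eq_top.2 hg)
  have ht' : ∀ x, g (t x) = x := fun x => LinearMap.congr_fun ht x
  have hdW' : ∀ w y y', g y = g y' → d (j w) y = d (j w) y' := by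
    intro w y y' hy
    obtain ⟨v, hv⟩ := (hjg (y - y')).1 (by rw [map_sub, hy, sub_self])
    have h := hdW w v
    rw [hv, map_sub, sub_eq_zero] at h
    exact h
  obtain ⟨ε, hεdef⟩ : ∃ ε : W →ₗ[k] M →ₗ[k] V, ε = d.compl₁₂ j t := ⟨_, rfl⟩
  have ε_apply : ∀ w y, ε w (g y) = d (j w) y := by
    intro w y
    rw [hεdef]
    exact hdW' w _ _ (ht' _)
  have hε : ε ∈ BAn A V eW e n := by
    refine ⟨fun a x y => ?_, fun i l x y hil => ?_⟩
    · obtain ⟨y, rfl⟩ := hg y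
      rw [← hga, ε_apply, ε_apply, hja, hd.1]
    · obtain ⟨y, rfl⟩ := hg y
      rw [← hge, ε_apply, hje]
      exact hd.2 i l _ _ hil
  obtain ⟨ε₁, hε₁, hε₁'⟩ := hX1 ε hε
  have hε₁'' : ∀ w y, ε₁ (j w) (g y) = d (j w) y := by
    intro w y
    rw [← ε_apply]
    exact hε₁' w (g y)
  obtain ⟨ζ, hζdef⟩ : ∃ ζ : F →ₗ[k] F →ₗ[k] V, ζ = ε₁.compl₁₂ LinearMap.id g := ⟨_, rfl⟩
  have hζ : ζ ∈ BAn A V eF eF n := by
    rw [hζdef]
    exact compl_mem hε₁ LinearMap.id g (fun _ _ => rfl) hga (fun _ _ => rfl) hge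
  have ζ_apply : ∀ x y, ζ x y = ε₁ x (g y) := fun x y => by rw [hζdef]; rfl
  have hgj : ∀ w, g (j w) = 0 := fun w => (hjg _).2 ⟨w, rfl⟩
  have ζW : ∀ x w, ζ x (j w) = 0 := by
    intro x w
    rw [ζ_apply, hgj, map_zero]
  have ζW' : ∀ w y, ζ (j w) y = d (j w) y := fun w y => by rw [ζ_apply, hε₁'']
  -- `d' = d - (ζ - s ζ^T)` vanishes on `W × F` and `F × W`
  obtain ⟨d', hd'def⟩ : ∃ d' : F →ₗ[k] F →ₗ[k] V, d' = d - (ζ - s • ζ.flip) := ⟨_, rfl⟩
  have d'_apply : ∀ x y, d' x y = d x y - (ζ x y - s • ζ y x) := fun x y => by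
    rw [hd'def]; rfl
  have hd'T : ∀ x y, d' y x = -s • d' x y := by
    intro x y
    rw [d'_apply, d'_apply, hdT]
    linear_combination (norm := module) hs • (ζ y x)
  have hd'1 : ∀ w y, d' (j w) y = 0 := by
    intro w y
    rw [d'_apply, ζW', ζW]
    module
  have hd'2 : ∀ y w, d' y (j w) = 0 := by
    intro y w
    rw [hd'T, hd'1, smul_zero]
  have hd' : d' ∈ BAn A V eF eF n := by
    rw [hd'def]
    exact sub_mem_BAn hd (sub_mem_BAn hζ (smul_mem_BAn s (flip_mem hζ)))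
  -- the solution
  have u_apply : ∀ x y, (c - ζ - (2 : k)⁻¹ • d') x y = c x y - ζ x y - (2 : k)⁻¹ • d' x y :=
    fun x y => rfl
  have h3 : (2 : k)⁻¹ * 2 = 1 := inv_mul_cancel₀ h2
  refine ⟨c - ζ - (2 : k)⁻¹ • d', ⟨sub_mem_BAn (sub_mem_BAn hc hζ) (smul_mem_BAn _ hd'),
    fun x y => ?_⟩, fun x y => ?_⟩
  · have e1 := d'_apply x y
    have e2 := d_apply x y
    have e3 := hd'T x y
    rw [u_apply, u_apply, e3]
    have e4 : d' x y = c x y - s • c y x - (ζ x y - s • ζ y x) := by rw [e1, e2]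
    have e5 : (s * ((2 : k)⁻¹ * 2) - s) = 0 := by rw [h3]; ring
    linear_combination (norm := module) s • e4 + e5 • (d' x y) - hs • (c y x) + hs • (ζ y x)
  · rw [u_apply, ζW, hd'2, hc']
    module

/-- The exact sequence `0 → BS s M → BS s F → BAn F W → BS (-s) W → 0` (dimensions). -/
theorem four_term {e : ℕ → M →ₗ[k] M} {eF : ℕ → F →ₗ[k] F} {eW : ℕ → W →ₗ[k] W}
    [IsScalarTower k A F] [IsScalarTower k A M] [IsScalarTower k A W]
    [Module.Finite k F] [Module.Finite k M] [Module.Finite k W] [Module.Finite k V]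
    (hp : IsGr p p) (he : IsGr p e) (hF : IsGr p eF) (hW : IsGr p eW)
    (g : F →ₗ[k] M) (hg : Function.Surjective g) (j : W →ₗ[k] F)
    (hga : ∀ (a : A) x, g (a • x) = a • g x) (hja : ∀ (a : A) x, j (a • x) = a • j x)
    (hjg : ∀ x, g x = 0 ↔ ∃ w, j w = x)
    (hge : ∀ i x, g (eF i x) = e i (g x)) (hje : ∀ i w, j (eW i w) = eF i (j w))
    (hX1 : ∀ γ : W →ₗ[k] M →ₗ[k] V, Bal A γ →
      ∃ γ' : F →ₗ[k] M →ₗ[k] V, Bal A γ' ∧ ∀ x y, γ' (j x) y = γ x y)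
    (hX2 : ∀ γ : W →ₗ[k] W →ₗ[k] V, Bal A γ →
      ∃ γ' : F →ₗ[k] W →ₗ[k] V, Bal A γ' ∧ ∀ x y, γ' (j x) y = γ x y)
    (hX3 : ∀ γ : F →ₗ[k] W →ₗ[k] V, Bal A γ →
      ∃ γ' : F →ₗ[k] F →ₗ[k] V, Bal A γ' ∧ ∀ x y, γ' x (j y) = γ x y)
    (h2 : (2 : k) ≠ 0) (s : k) (hs : s * s = 1) (n : ℕ) :
    finrank k (BS A V s e n) + finrank k (BAn A V eF eW n) =
      finrank k (BS A V s eF n) + finrank k (BS A V (-s) eW n) := by
  have hX1' := graded_lift_left hp hF he hW j hje hX1 n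
  have hX2' := graded_lift_left hp hF hW hW j hje hX2 n
  have hX3' := graded_lift_right hp hF hF hW j hje hX3 n
  have m1 : ∀ b : BS A V s e n, (pull g g) b.1 ∈ BS A V s eF n := fun b =>
    ⟨compl_mem b.2.1 g g hga hga hge hge, fun x y => b.2.2 _ _⟩
  have m2 : ∀ b : BS A V s eF n, (pull LinearMap.id j) b.1 ∈ BAn A V eF eW n := fun b =>
    compl_mem b.2.1 LinearMap.id j (fun a x => rfl) hja (fun _ _ => rfl) hje
  have m3 : ∀ b : BAn A V eF eW n, (asym s j) b.1 ∈ BS A V (-s) eW n := fun b =>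
    asym_mem j hja hje hs b.2
  refine finrank4 (V₁ := BS A V s e n) (V₂ := BS A V s eF n) (V₃ := BAn A V eF eW n)
    (V₄ := BS A V (-s) eW n)
    (((pull g g).comp (BS A V s e n).subtype).codRestrict (BS A V s eF n) m1)
    (((pull LinearMap.id j).comp (BS A V s eF n).subtype).codRestrict (BAn A V eF eW n) m2)
    (((asym s j).comp (BAn A V eF eW n).subtype).codRestrict (BS A V (-s) eW n) m3) ?_ ?_ ?_ ?_
  · intro b c hbc
    apply Subtype.ext
    refine LinearMap.ext fun x => LinearMap.ext fun y => ?_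
    obtain ⟨x, rfl⟩ := hg x
    obtain ⟨y, rfl⟩ := hg y
    exact LinearMap.congr_fun (LinearMap.congr_fun (congrArg Subtype.val hbc) x) y
  · ext b
    rw [LinearMap.mem_range, LinearMap.mem_ker]
    constructor
    · rintro ⟨c, rfl⟩
      apply Subtype.ext
      refine LinearMap.ext fun x => LinearMap.ext fun y => ?_
      show c.1 (g x) (g (j y)) = 0
      rw [(hjg (j y)).2 ⟨y, rfl⟩, map_zero]
    · intro hb
      have hb1 : ∀ x y, g y = 0 → b.1 x y = 0 := by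
        intro x y hy
        obtain ⟨w, rfl⟩ := (hjg y).1 hy
        exact LinearMap.congr_fun (LinearMap.congr_fun (congrArg Subtype.val hb) x) w
      have hb2 : ∀ x y, g x = 0 → b.1 x y = 0 := by
        intro x y hx
        rw [b.2.2 y x, hb1 y x hx, smul_zero]
      obtain ⟨c, hc, hc'⟩ := descend g hg hga hge n b.1 b.2.1 hb1 hb2
      refine ⟨⟨c, hc, fun x y => ?_⟩, ?_⟩
      · obtain ⟨x, rfl⟩ := hg x
        obtain ⟨y, rfl⟩ := hg y
        rw [hc', hc', b.2.2]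
      · apply Subtype.ext
        exact LinearMap.ext fun x => LinearMap.ext fun y => hc' x y
  · ext γ
    rw [LinearMap.mem_range, LinearMap.mem_ker]
    constructor
    · rintro ⟨c, rfl⟩
      apply Subtype.ext
      refine LinearMap.ext fun x => LinearMap.ext fun y => ?_
      show c.1 (j x) (j y) - s • c.1 (j y) (j x) = 0
      rw [← c.2.2, sub_self]
    · intro hγ
      have hγ' : ∀ x y, γ.1 (j x) y = s • γ.1 (j y) x := by
        intro x y
        have h := LinearMap.congr_fun (LinearMap.congr_fun (congrArg Subtype.val hγ) x) y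
        exact sub_eq_zero.1 h
      obtain ⟨u, hu, hu'⟩ := solve g hg j hga hja hjg hge hje hX1' hX3' h2 s hs γ.1 γ.2 hγ'
      refine ⟨⟨u, hu⟩, ?_⟩
      apply Subtype.ext
      exact LinearMap.ext fun x => LinearMap.ext fun y => hu' x y
  · intro b
    have hbm : (2 : k)⁻¹ • b.1 ∈ BAn A V eW eW n := smul_mem_BAn _ b.2.1
    obtain ⟨γ, hγ, hγ'⟩ := hX2' _ hbm
    have hγ'' : ∀ x y, γ (j x) y = (2 : k)⁻¹ • b.1 x y := fun x y => hγ' x y
    refine ⟨⟨γ, hγ⟩, ?_⟩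
    apply Subtype.ext
    refine LinearMap.ext fun x => LinearMap.ext fun y => ?_
    show γ (j x) y - s • γ (j y) x = b.1 x y
    rw [hγ'', hγ'', b.2.2 x y]
    have h3 : (2 : k) * (2 : k)⁻¹ = 1 := mul_inv_cancel₀ h2
    linear_combination (norm := module) (2 : k)⁻¹ • hs • (b.1 x y) + h3 • (b.1 x y)

end Pool.Agent.Helper89.TC
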