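import Pool.Agent.Helper89.TC.Count

/-!
From the absence of antisymmetric forms to self-injectivity.
-/

open Module CategoryTheory CategoryTheory.Abelian

namespace Pool.Agent.Helper89.TC

variable {k : Type} [Field k] {A : Type} [CommRing A] [Algebra k A]
variable {p : ℕ → A →ₗ[k] A}
variable {V : Type} [AddCommGroup V] [Module k V]

/-- `x` is killed by all elements of positive degree -/
def Soc (p : ℕ → A →ₗ[k] A) (x : A) : Prop := ∀ i, 1 ≤ i → ∀ a, p i a * x = 0

theorem soc_mul (hp : IsGr p p) (hA0 : ∀ x : A, ∃ c : k, algebraMap k A c = p 0 x) {x : A}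
    (hx : Soc p x) (a : A) : ∃ c : k, (∀ y, Soc p y → a * y = c • y) ∧ a * x = c • x := by
  obtain ⟨c, hc⟩ := hA0 a
  have key : ∀ y, Soc p y → a * y = c • y := by
    intro y hy
    obtain ⟨B, _, hB⟩ := hp.exists_bdd
    have h1 : a * y = ∑ i ∈ Finset.range B, p i a * y := by
      rw [← Finset.sum_mul, hB]
    have h2 : ∀ i ∈ Finset.range B, i ≠ 0 → p i a * y = 0 := fun i _ hi => hy i (by omega) a
    rcases Nat.eq_zero_or_pos B with h | h
    · have h3 : ∀ z : A, z = 0 := fun z => by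
        have := hB z
        rw [h, Finset.range_zero, Finset.sum_empty] at this
        exact this.symm
      rw [h3 (a * y), h3 (c • y)]
    · rw [h1, Finset.sum_eq_single 0 h2 (fun h3 => absurd (Finset.mem_range.2 h) h3), ← hc,
        Algebra.smul_def]
  exact ⟨c, key, key x hx⟩

variable [Module.Finite k A] [Module.Finite k V]

theorem soc_dim (hp : IsGr p p) (hA0 : ∀ x : A, ∃ c : k, algebraMap k A c = p 0 x) {s : ℕ}
    (hs : ∀ i, s < i → p i = 0) (hV : finrank k V = 1)
    (hno : ∀ n, finrank k (BS A V (-1 : k) (eE V p s) n) = 0)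
    {x y : A} (hx : Soc p x) (hy : Soc p y) (hx0 : x ≠ 0) : ∃ c : k, y = c • x := by
  have he : IsGr p (eE V p s) := isGr_eE hp hs
  obtain ⟨φ₀, hφ₀⟩ := exists_functional (k := k) (V := V) hV hx0
  let v := φ₀.get x
  have hv : v ≠ 0 := hφ₀
  have hbas : ∀ w : V, ∃ c : k, c • v = w := by
    intro w
    exact (finrank_eq_one_iff_of_nonzero' v hv).1 hV w
  obtain ⟨μ, hμ⟩ : ∃ μ : V →ₗ[k] k, μ v = 1 := by
    have h3 : ∃ f : Module.Dual k V, f v ≠ 0 := by
      by_contra h
      push Not at h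
      exact hv ((Module.forall_dual_apply_eq_zero_iff k v).1 h)
    obtain ⟨f, hf⟩ := h3
    exact ⟨(f v)⁻¹ • f, by simp [hf]⟩
  have hμv : ∀ w, μ w • v = w := by
    intro w
    obtain ⟨c, rfl⟩ := hbas w
    rw [map_smul, hμ, smul_eq_mul, mul_one]
  -- the form
  let β : Dl k V A →ₗ[k] Dl k V A →ₗ[k] V := LinearMap.mk₂ k
    (fun φ ψ => μ (φ.get x) • ψ.get y - μ (ψ.get x) • φ.get y)
    (fun φ φ' ψ => by
      simp only [Dl.add_get, map_add]
      module)
    (fun c φ ψ => by
      simp only [Dl.smul_get, map_smul, smul_eq_mul]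
      module)
    (fun φ ψ ψ' => by
      simp only [Dl.add_get, map_add]
      module)
    (fun c φ ψ => by
      simp only [Dl.smul_get, map_smul, smul_eq_mul]
      module)
  have β_apply : ∀ φ ψ, β φ ψ = μ (φ.get x) • ψ.get y - μ (ψ.get x) • φ.get y := fun _ _ => rfl
  have hβ : Bal A β := by
    intro a φ ψ
    obtain ⟨c, hc, _⟩ := soc_mul hp hA0 hx a
    rw [β_apply, β_apply]
    simp only [Dl.act_get, smul_eq_mul, hc x hx, hc y hy, map_smul]
    module
  have hanti : ∀ φ ψ, β ψ φ = - β φ ψ := by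
    intro φ ψ
    rw [β_apply, β_apply]
    module
  have hcmp : ∀ n, cmp (eE V p s) (eE V p s) n β = 0 := by
    intro n
    have h1 : cmp (eE V p s) (eE V p s) n β ∈ BS A V (-1 : k) (eE V p s) n := by
      refine ⟨cmp_mem hp he he n hβ, fun φ ψ => ?_⟩
      rw [cmp_apply, cmp_apply, neg_smul, one_smul, ← Finset.sum_neg_distrib,
        ← Finset.Nat.sum_antidiagonal_swap]
      refine Finset.sum_congr rfl fun q _ => ?_
      rw [hanti]
      rfl
    have h2 := hno n
    rw [Submodule.finrank_eq_zero] at h2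
    rw [h2, Submodule.mem_bot] at h1
    exact h1
  have hβ0 : β = 0 := by
    refine form_ext he he fun i j φ ψ => ?_
    have h1 := cmp_hom he he (i + j) i j β φ ψ
    rw [if_pos rfl, hcmp] at h1
    rw [← h1]
  refine ⟨μ (φ₀.get y), ?_⟩
  by_contra hne
  have hne' : y - μ (φ₀.get y) • x ≠ 0 := fun h => hne (sub_eq_zero.1 h)
  obtain ⟨ψ, hψ⟩ := exists_functional (k := k) (V := V) hV hne'
  apply hψ
  have h1 : β φ₀ ψ = 0 := by rw [hβ0]; rfl
  rw [β_apply] at h1
  have h2 : μ (φ₀.get x) = 1 := hμ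
  rw [h2, one_smul, sub_eq_zero] at h1
  rw [map_sub, map_smul, h1]
  have h3 : φ₀.get y = μ (φ₀.get y) • v := (hμv _).symm
  have h4 : ψ.get x = μ (ψ.get x) • v := (hμv _).symm
  generalize μ (φ₀.get y) = α at h3 ⊢
  generalize μ (ψ.get x) = γ at h4 ⊢
  rw [h3, h4]
  module

/-- one dimensional socle implies self-injective -/
theorem injective_of_soc (hp : IsGr p p) (hA0 : ∀ x : A, ∃ c : k, algebraMap k A c = p 0 x)
    {s : ℕ} (hs : ∀ i, s < i → p i = 0) (hs0 : p s ≠ 0) (hV : finrank k V = 1)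
    (hsoc : ∀ x y : A, Soc p x → Soc p y → x ≠ 0 → ∃ c : k, y = c • x) :
    Module.Injective A A := by
  obtain ⟨a₀, ha₀⟩ : ∃ x, p s x ≠ 0 := by
    by_contra h'
    push Not at h'
    exact hs0 (LinearMap.ext h')
  have hx₀ : Soc p (p s a₀) := by
    intro i hi a
    have h := hp.smul i s a a₀
    rw [hs (i + s) (by omega)] at h
    exact h.symm
  obtain ⟨φ₀, hφ₀⟩ := exists_functional (k := k) (V := V) hV ha₀
  -- every nonzero element has a nonzero multiple in the socle
  have hmult : ∀ a : A, a ≠ 0 → ∃ b, Soc p (b * a) ∧ b * a ≠ 0 := by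
    intro a ha
    let Q : ℕ → Prop := fun j => ∃ b, (∀ i, i < j → p i b = 0) ∧ b * a ≠ 0
    have hQ0 : Q 0 := ⟨1, fun i hi => absurd hi (by omega), by rwa [one_mul]⟩
    have hQs : ¬ Q (s + 1) := by
      rintro ⟨b, hb, hba⟩
      apply hba
      have h3 : b = 0 := by
        obtain ⟨B, _, hB⟩ := hp.exists_bdd
        rw [← hB b]
        refine Finset.sum_eq_zero fun i _ => ?_
        by_cases hi : i < s + 1
        · exact hb i hi
        · rw [hs i (by omega)]
          rfl
      rw [h3, zero_mul]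
    obtain ⟨j, hj, hj'⟩ : ∃ j, Q j ∧ ¬ Q (j + 1) := by
      by_contra h
      push Not at h
      have h3 : ∀ j, Q j := fun j => by
        induction j with
        | zero => exact hQ0
        | succ j ih => exact h j ih
      exact hQs (h3 _)
    obtain ⟨b, hb, hba⟩ := hj
    refine ⟨b, fun i hi c => ?_, hba⟩
    by_contra hne
    apply hj'
    refine ⟨p i c * b, fun l hl => ?_, by rwa [mul_assoc]⟩
    rw [hp.mul_hom]
    split_ifs with h
    · rw [hb (l - i) (by omega), mul_zero]
    · rfl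
  let θ : A →ₗ[A] Dl k V A := LinearMap.toSpanSingleton A (Dl k V A) φ₀
  have θ_apply : ∀ a b, (θ a).get b = φ₀.get (a * b) := fun a b => rfl
  have hinj : Function.Injective θ := by
    rw [injective_iff_map_eq_zero]
    intro a ha
    by_contra hne
    obtain ⟨b, hb, hba⟩ := hmult a hne
    obtain ⟨c, hc⟩ := hsoc _ _ hb hx₀ hba
    apply hφ₀
    rw [hc, map_smul, mul_comm b a, ← θ_apply, ha, Dl.zero_get, smul_zero]
  have e1 : finrank k A = finrank k (Dl k V A) := by
    rw [finrank_Dl, hV, mul_one]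
  have hsurj : Function.Surjective θ :=
    (LinearMap.injective_iff_surjective_of_finrank_eq_finrank
      (f := θ.restrictScalars k) e1).1 hinj
  let θe : A ≃ₗ[A] Dl k V A := LinearEquiv.ofBijective θ ⟨hinj, hsurj⟩
  have hI : Module.Injective A (Dl k V A) := injective_Dl_ring
  refine ⟨fun X Y _ _ _ _ f hf g => ?_⟩
  obtain ⟨h, hh⟩ := hI.out f hf (θe.toLinearMap.comp g)
  refine ⟨θe.symm.toLinearMap.comp h, fun x => ?_⟩
  show θe.symm (h (f x)) = g x
  rw [hh x]
  exact θe.symm_apply_apply _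

variable [HasExt.{0} (ModuleCat.{0} A)]

/-- The theorem in terms of the projections of the grading. -/
theorem main_proj (hp : IsGr p p) (h1 : p 0 1 = 1) (h2 : (2 : k) ≠ 0)
    (hA0 : ∀ x : A, ∃ c : k, algebraMap k A c = p 0 x) {s : ℕ} (hs : ∀ i, s < i → p i = 0)
    (hs0 : p s ≠ 0) (hV : finrank k V = 1)
    (h : ∀ i, 1 ≤ i → i ≤ 3 * s + 2 →
      Subsingleton (Ext (ModuleCat.of A (Dl k V A)) (ModuleCat.of A A) i)) :
    Module.Injective A A := by
  have hno := no_antisym (V := V) hp h1 h2 hA0 hs hs0 hV (van_of_ext hV h)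
  exact injective_of_soc (V := V) hp hA0 hs hs0 hV
    (fun x y hx hy hx0 => soc_dim (V := V) hp hA0 hs hV hno hx hy hx0)

end Pool.Agent.Helper89.TC
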